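import Pool.Agent.H270.QP.Defs

/-!
# Assembly on a Hilbert space
-/

set_option autoImplicit false

open Polynomial Filter Topology

namespace Pool.Agent.H270.QP

open Pool.Agent.Helper324_QNR

theorem Kc_eq (q : ℂ) (hq0 : 0 < ‖q‖) : 2 / kap q = Kc q := by
  rw [kap, Kc, div_div_eq_mul_div]

theorem Kc_pos (q : ℂ) (hq0 : 0 < ‖q‖) : 0 < Kc q := by
  have := Real.sqrt_nonneg (1 - ‖q‖ ^ 2)
  rw [Kc]
  positivity

theorem Kc_one_le (q : ℂ) (hq0 : 0 < ‖q‖) : Kc q ≤ 2 * ‖q‖ := by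
  have := Real.sqrt_nonneg (1 - ‖q‖ ^ 2)
  rw [Kc, div_le_iff₀ (by positivity)]
  nlinarith

variable {H : Type*} [NormedAddCommGroup H] [InnerProductSpace ℂ H] [CompleteSpace H]

/-- the main inequality -/
theorem main_ineq (hm : S_moeb H) (hg : S_geom H) (A : H →L[ℂ] H) (q : ℂ) (hq0 : 0 < ‖q‖)
    (hq1 : ‖q‖ ≤ 1) (hd : ‖q‖ = 1 ∨ HasOrth H) (p : ℂ[X]) (hp : ∀ z ∈ Om A q, ‖p.eval z‖ ≤ 1)
    (x : H) (hx : ‖x‖ = 1) :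
    Kc q * (‖aeval A p x‖ ^ 2 - 1) ≤
      (Kc q ^ 2 - 1) * Real.sqrt (‖aeval A p x‖ ^ 2 - ‖(inner ℂ x (aeval A p x) : ℂ)‖ ^ 2) := by
  have h := hg (kap q) (kap_ge q hq0 hq1) x (aeval A p x) hx
    (fun e he w hw => hm A q hq0 hq1 hd p hp e he w hw x)
  rwa [Kc_eq q hq0] at h

theorem inner_sq_le (x v : H) (hx : ‖x‖ = 1) : ‖(inner ℂ x v : ℂ)‖ ^ 2 ≤ ‖v‖ ^ 2 := by
  have := norm_inner_le_norm (𝕜 := ℂ) x v
  rw [hx, one_mul] at this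
  exact pow_le_pow_left₀ (norm_nonneg _) this 2

/-- the set of pairs `(⟨p(A)x,x⟩, ‖p(A)x‖²)` -/
def Sset (H : Type*) [NormedAddCommGroup H] [InnerProductSpace ℂ H] [CompleteSpace H] (q : ℂ) :
    Set (ℂ × ℝ) :=
  {z | ∃ (A : H →L[ℂ] H) (p : ℂ[X]) (x : H), (∀ w ∈ Om A q, ‖p.eval w‖ ≤ 1) ∧ ‖x‖ = 1 ∧
    z = ((inner ℂ x (aeval A p x) : ℂ), ‖aeval A p x‖ ^ 2)}

theorem Reg_closed (K : ℝ) : IsClosed (Reg K) := by
  rw [Reg, Set.ofPred_and]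
  refine IsClosed.inter ?_ ?_
  · exact isClosed_le (by fun_prop) (by fun_prop)
  · exact isClosed_le (by fun_prop) (by fun_prop)

theorem mem_Reg (hm : S_moeb H) (hg : S_geom H) (A : H →L[ℂ] H) (q : ℂ) (hq0 : 0 < ‖q‖)
    (hq1 : ‖q‖ ≤ 1) (hd : ‖q‖ = 1 ∨ HasOrth H) (p : ℂ[X]) (hp : ∀ z ∈ Om A q, ‖p.eval z‖ ≤ 1)
    (x : H) (hx : ‖x‖ = 1) :
    ((inner ℂ x (aeval A p x) : ℂ), ‖aeval A p x‖ ^ 2) ∈ Reg (Kc q) :=
  ⟨inner_sq_le x _ hx, main_ineq hm hg A q hq0 hq1 hd p hp x hx⟩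

/-- the exact region -/
theorem closure_eq (hm : S_moeb H) (hg : S_geom H) (hde : S_dense H) (ho : HasOrth H) (q : ℂ)
    (hq0 : 0 < ‖q‖) (hq1 : ‖q‖ ≤ 1) : closure (Sset H q) = Reg (Kc q) := by
  obtain ⟨f, hf⟩ := ho 0
  obtain ⟨e, he⟩ := ho f
  apply Set.Subset.antisymm
  · apply closure_minimal _ (Reg_closed _)
    rintro _ ⟨A, p, x, hp, hx, rfl⟩
    exact mem_Reg hm hg A q hq0 hq1 (Or.inr ho) p hp x hx
  · rintro ⟨ζ, β⟩ hz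
    rw [Metric.mem_closure_iff]
    intro ε hε
    obtain ⟨A, p, x, hp, hx, h1, h2⟩ := hde e f he.1 hf.1 he.2 q hq0 hq1 ζ β hz ε hε
    refine ⟨_, ⟨A, p, x, hp, hx, rfl⟩, ?_⟩
    rw [Prod.dist_eq, max_lt_iff]
    constructor
    · rw [dist_comm, dist_eq_norm]; exact h1
    · rw [dist_comm, Real.dist_eq]; exact h2

theorem sqrt_aux (c : ℝ) (hc0 : 0 ≤ c) (hc1 : c ≤ 1) :
    Real.sqrt (1 - Real.sqrt (1 - c ^ 2) ^ 2) = c := by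
  rw [Real.sq_sqrt (by nlinarith), sub_sub_cancel, Real.sqrt_sq hc0]

theorem sqrt_aux0 (c : ℝ) (hc0 : 0 ≤ c) : Real.sqrt (1 - c ^ 2) ≤ 1 := by
  rw [Real.sqrt_le_one]
  nlinarith

/-- the bound for pairs of unit vectors -/
theorem bound_pair (hm : S_moeb H) (hg : S_geom H) (hu : S_up H) (hmx : S_max) (A : H →L[ℂ] H)
    (q : ℂ) (hq0 : 0 < ‖q‖)
    (hq1 : ‖q‖ ≤ 1) (hd : ‖q‖ = 1 ∨ HasOrth H) (p : ℂ[X]) (hp : ∀ z ∈ Om A q, ‖p.eval z‖ ≤ 1)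
    (x y : H) (hx : ‖x‖ = 1) (hy : ‖y‖ = 1) :
    ‖(inner ℂ y (aeval A p x) : ℂ)‖ ≤ G (Kc q) (Real.sqrt (1 - ‖(inner ℂ y x : ℂ)‖ ^ 2)) := by
  have hc1 : ‖(inner ℂ y x : ℂ)‖ ≤ 1 := by
    have := norm_inner_le_norm (𝕜 := ℂ) y x
    rwa [hx, hy, one_mul] at this
  have hc0 := norm_nonneg (inner ℂ y x : ℂ)
  obtain ⟨h1, -⟩ := hmx (Kc q) (Real.sqrt (1 - ‖(inner ℂ y x : ℂ)‖ ^ 2)) (Kc_pos q hq0)
    (Real.sqrt_nonneg _) (sqrt_aux0 _ hc0)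
  have h2 := hu x y (aeval A p x) hx hy
  have hs : 0 ≤ ‖aeval A p x‖ ^ 2 - ‖(inner ℂ x (aeval A p x) : ℂ)‖ ^ 2 :=
    sub_nonneg.mpr (inner_sq_le x _ hx)
  have h3 := h1 ‖(inner ℂ x (aeval A p x) : ℂ)‖
    (Real.sqrt (‖aeval A p x‖ ^ 2 - ‖(inner ℂ x (aeval A p x) : ℂ)‖ ^ 2)) (norm_nonneg _)
    (Real.sqrt_nonneg _) (by
      rw [Real.sq_sqrt hs]
      have := main_ineq hm hg A q hq0 hq1 hd p hp x hx
      rwa [add_sub_cancel])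
  rw [sqrt_aux _ hc0 hc1] at h3
  exact h2.trans h3

/-- the exact constants -/
theorem lub (hm : S_moeb H) (hg : S_geom H) (hu : S_up H) (hac : S_ach H) (hmx : S_max)
    (hde : S_dense H) (ho : HasOrth H) (q : ℂ) (hq0 : 0 < ‖q‖) (hq1 : ‖q‖ ≤ 1) (r : ℂ)
    (hr0 : 0 < ‖r‖) (hr1 : ‖r‖ ≤ 1) :
    IsLUB {t : ℝ | ∃ (A : H →L[ℂ] H) (p : ℂ[X]), (∀ w ∈ Om A q, ‖p.eval w‖ ≤ 1) ∧
      ∃ z ∈ Om (aeval A p) r, t = ‖z‖} (G (Kc q) (Real.sqrt (1 - ‖r‖ ^ 2)) / ‖r‖) := by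
  constructor
  · rintro _ ⟨A, p, hp, z, ⟨x, y, hx, hy, hxy, rfl⟩, rfl⟩
    have := bound_pair hm hg hu hmx A q hq0 hq1 (Or.inr ho) p hp x y hx hy
    rw [hxy] at this
    rw [norm_div]
    gcongr
  · intro b hb
    obtain ⟨-, z, h, hz0, hh0, hzh, hG⟩ := hmx (Kc q) (Real.sqrt (1 - ‖r‖ ^ 2)) (Kc_pos q hq0)
      (Real.sqrt_nonneg _) (sqrt_aux0 _ hr0.le)
    rw [sqrt_aux _ hr0.le hr1] at hG
    have hmem : ((z : ℂ), z ^ 2 + h ^ 2) ∈ Reg (Kc q) := by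
      constructor
      · simp only [Complex.norm_real, Real.norm_eq_abs, sq_abs]
        nlinarith [sq_nonneg h]
      · simp only [Complex.norm_real, Real.norm_eq_abs, sq_abs, add_sub_cancel_left]
        rw [Real.sqrt_sq hh0]
        exact hzh
    rw [← closure_eq hm hg hde ho q hq0 hq1] at hmem
    have hcl : IsClosed {w : ℂ × ℝ | ‖r‖ * ‖w.1‖ + Real.sqrt (1 - ‖r‖ ^ 2) *
        Real.sqrt (w.2 - ‖w.1‖ ^ 2) ≤ b * ‖r‖} :=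
      isClosed_le (by fun_prop) (by fun_prop)
    have hsub : closure (Sset H q) ⊆ {w : ℂ × ℝ | ‖r‖ * ‖w.1‖ + Real.sqrt (1 - ‖r‖ ^ 2) *
        Real.sqrt (w.2 - ‖w.1‖ ^ 2) ≤ b * ‖r‖} := by
      apply closure_minimal _ hcl
      rintro _ ⟨A, p, x, hp, hx, rfl⟩
      obtain ⟨y, hy, hyx, hyv⟩ := hac ho x (aeval A p x) hx r hr1
      have h1 := hb ⟨A, p, hp, _, ⟨x, y, hx, hy, hyx, rfl⟩, rfl⟩
      rw [norm_div, div_le_iff₀ hr0] at h1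
      simp only [Set.mem_ofPred_eq]
      rw [← hyv]
      exact h1
    have h2 := hsub hmem
    simp only [Set.mem_ofPred_eq, Complex.norm_real, Real.norm_eq_abs, sq_abs,
      add_sub_cancel_left] at h2
    rw [Real.sqrt_sq hh0, abs_of_nonneg hz0, hG] at h2
    rw [div_le_iff₀ hr0]
    exact h2

/-- the main inequality with a general bound `M` -/
theorem main_ineq_M (hm : S_moeb H) (hg : S_geom H) (A : H →L[ℂ] H) (q : ℂ) (hq0 : 0 < ‖q‖)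
    (hq1 : ‖q‖ ≤ 1) (hd : ‖q‖ = 1 ∨ HasOrth H) (p : ℂ[X]) (M : ℝ) (hM0 : 0 ≤ M)
    (hp : ∀ z ∈ Om A q, ‖p.eval z‖ ≤ M) (x : H) (hx : ‖x‖ = 1) :
    Kc q * (‖aeval A p x‖ ^ 2 - M ^ 2) ≤
      (Kc q ^ 2 - 1) * M * Real.sqrt (‖aeval A p x‖ ^ 2 - ‖(inner ℂ x (aeval A p x) : ℂ)‖ ^ 2) := by
  rcases hM0.eq_or_lt with h0 | h0
  · subst h0
    have h1 := crude A q hq0 hq1 hd p 0 le_rfl hp
    have h2 : aeval A p = 0 := by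
      rw [← norm_eq_zero]
      exact le_antisymm (by simpa using h1) (norm_nonneg _)
    rw [h2]
    simp
  · have hMc : (M : ℂ) ≠ 0 := by exact_mod_cast h0.ne'
    set p' : ℂ[X] := C ((M : ℂ)⁻¹) * p with hp'
    have h1 := main_ineq hm hg A q hq0 hq1 hd p' (by
      intro z hz
      rw [hp', eval_mul, eval_C, norm_mul, norm_inv, Complex.norm_real, Real.norm_of_nonneg hM0,
        inv_mul_le_iff₀ h0, mul_one]
      exact hp z hz) x hx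
    have h2 : aeval A p' x = ((M : ℂ)⁻¹) • aeval A p x := by
      rw [hp', map_mul, aeval_C, Algebra.algebraMap_eq_smul_one, smul_mul_assoc, one_mul]
      rfl
    rw [h2, inner_smul_right, norm_smul, norm_mul, norm_inv, Complex.norm_real,
      Real.norm_of_nonneg hM0] at h1
    set N := ‖aeval A p x‖
    set I := ‖(inner ℂ x (aeval A p x) : ℂ)‖
    have h3 : Real.sqrt ((M⁻¹ * N) ^ 2 - (M⁻¹ * I) ^ 2) = M⁻¹ * Real.sqrt (N ^ 2 - I ^ 2) := by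
      have : (M⁻¹ * N) ^ 2 - (M⁻¹ * I) ^ 2 = (M⁻¹) ^ 2 * (N ^ 2 - I ^ 2) := by ring
      rw [this, Real.sqrt_mul (by positivity), Real.sqrt_sq (by positivity)]
    rw [h3] at h1
    have h4 : M ^ 2 * (Kc q * ((M⁻¹ * N) ^ 2 - 1)) ≤
        M ^ 2 * ((Kc q ^ 2 - 1) * (M⁻¹ * Real.sqrt (N ^ 2 - I ^ 2))) := by gcongr
    have e1 : M ^ 2 * (Kc q * ((M⁻¹ * N) ^ 2 - 1)) = Kc q * (N ^ 2 - M ^ 2) := by
      field_simp
    have e2 : M ^ 2 * ((Kc q ^ 2 - 1) * (M⁻¹ * Real.sqrt (N ^ 2 - I ^ 2))) =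
        (Kc q ^ 2 - 1) * M * Real.sqrt (N ^ 2 - I ^ 2) := by
      field_simp
    rwa [e1, e2] at h4

end Pool.Agent.H270.QP
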