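import Pool.Agent.H270.QP.Defs

set_option autoImplicit false

namespace Pool.Agent.H270.QP

section

variable {H : Type*} [NormedAddCommGroup H] [InnerProductSpace ℂ H]

lemma up_self {x : H} (hx : ‖x‖ = 1) : inner ℂ x x = (1 : ℂ) := by
  rw [inner_self_eq_norm_sq_to_K, hx]
  simp

lemma up_perp {x : H} (hx : ‖x‖ = 1) (v : H) :
    inner ℂ x (v - (inner ℂ x v : ℂ) • x) = (0 : ℂ) ∧
      ‖v - (inner ℂ x v : ℂ) • x‖ ^ 2 = ‖v‖ ^ 2 - ‖(inner ℂ x v : ℂ)‖ ^ 2 := by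
  have h1 : inner ℂ x (v - (inner ℂ x v : ℂ) • x) = (0 : ℂ) := by
    rw [inner_sub_right, inner_smul_right, up_self hx, mul_one, sub_self]
  refine ⟨h1, ?_⟩
  have h2 : inner ℂ ((inner ℂ x v : ℂ) • x) (v - (inner ℂ x v : ℂ) • x) = (0 : ℂ) := by
    rw [inner_smul_left, h1, mul_zero]
  have h3 := norm_add_sq_eq_norm_sq_add_norm_sq_of_inner_eq_zero _ _ h2
  rw [add_sub_cancel, norm_smul, hx, mul_one] at h3
  nlinarith

lemma up_phase (c : ℂ) : ∃ φ : ℂ, ‖φ‖ = 1 ∧ c = φ * (‖c‖ : ℂ) := by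
  by_cases hc : c = 0
  · exact ⟨1, norm_one, by rw [hc]; simp⟩
  · have h : (‖c‖ : ℂ) ≠ 0 := by
      rw [Ne, Complex.ofReal_eq_zero, norm_eq_zero]
      exact hc
    refine ⟨c / (‖c‖ : ℂ), ?_, ?_⟩
    · rw [norm_div, Complex.norm_real, norm_norm, div_self (norm_ne_zero_iff.mpr hc)]
    · rw [div_mul_cancel₀ _ h]

end

theorem t_up (H : Type*) [NormedAddCommGroup H] [InnerProductSpace ℂ H] [CompleteSpace H] :
    S_up H := by
  intro x y v hx hy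
  obtain ⟨h1, h2⟩ := up_perp hx v
  obtain ⟨h3, h4⟩ := up_perp hx y
  obtain ⟨v', hv'⟩ : ∃ v', v' = v - (inner ℂ x v : ℂ) • x := ⟨_, rfl⟩
  obtain ⟨y', hy'⟩ : ∃ y', y' = y - (inner ℂ x y : ℂ) • x := ⟨_, rfl⟩
  rw [← hv'] at h1 h2
  rw [← hy'] at h3 h4
  have hv : v = (inner ℂ x v : ℂ) • x + v' := by rw [hv', add_sub_cancel]
  have hyy : y = (inner ℂ x y : ℂ) • x + y' := by rw [hy', add_sub_cancel]
  have h5 : (inner ℂ y v : ℂ) = inner ℂ y x * inner ℂ x v + inner ℂ y' v' := by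
    have e1 : (inner ℂ y v : ℂ) = inner ℂ y ((inner ℂ x v : ℂ) • x + v') := by rw [← hv]
    have e2 : (inner ℂ y v' : ℂ) = inner ℂ ((inner ℂ x y : ℂ) • x + y') v' := by rw [← hyy]
    rw [e1, inner_add_right, inner_smul_right, e2, inner_add_left, inner_smul_left, h1, mul_zero,
      zero_add]
    ring
  have hc : ‖(inner ℂ y x : ℂ)‖ = ‖(inner ℂ x y : ℂ)‖ := norm_inner_symm _ _
  have h6 : Real.sqrt (1 - ‖(inner ℂ y x : ℂ)‖ ^ 2) = ‖y'‖ := by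
    rw [hc]
    rw [hy, one_pow] at h4
    rw [← h4, Real.sqrt_sq (norm_nonneg _)]
  have h7 : Real.sqrt (‖v‖ ^ 2 - ‖(inner ℂ x v : ℂ)‖ ^ 2) = ‖v'‖ := by
    rw [← h2, Real.sqrt_sq (norm_nonneg _)]
  rw [h6, h7, h5]
  refine (norm_add_le _ _).trans ?_
  rw [norm_mul]
  have := norm_inner_le_norm (𝕜 := ℂ) y' v'
  linarith

theorem t_ach (H : Type*) [NormedAddCommGroup H] [InnerProductSpace ℂ H] [CompleteSpace H] :
    S_ach H := by
  intro hO x v hx q hq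
  obtain ⟨h1, h2⟩ := up_perp hx v
  obtain ⟨v', hv'⟩ : ∃ v', v' = v - (inner ℂ x v : ℂ) • x := ⟨_, rfl⟩
  rw [← hv'] at h1 h2
  have hv : v = (inner ℂ x v : ℂ) • x + v' := by rw [hv', add_sub_cancel]
  obtain ⟨n, hn, hxn, hvn⟩ : ∃ n : H, ‖n‖ = 1 ∧ inner ℂ x n = (0 : ℂ) ∧
      v' = ((‖v'‖ : ℝ) : ℂ) • n := by
    by_cases h0 : v' = 0
    · obtain ⟨w, hw, hxw⟩ := hO x
      exact ⟨w, hw, hxw, by rw [h0]; simp⟩
    · have h3 : ((‖v'‖ : ℝ) : ℂ) ≠ 0 := by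
        rw [Ne, Complex.ofReal_eq_zero, norm_eq_zero]
        exact h0
      refine ⟨(((‖v'‖ : ℝ) : ℂ))⁻¹ • v', ?_, ?_, ?_⟩
      · rw [norm_smul, norm_inv, Complex.norm_real, norm_norm,
          inv_mul_cancel₀ (norm_ne_zero_iff.mpr h0)]
      · rw [inner_smul_right, h1, mul_zero]
      · rw [smul_smul, mul_inv_cancel₀ h3, one_smul]
  have hnx : inner ℂ n x = (0 : ℂ) := by
    rw [← inner_conj_symm, hxn, map_zero]
  obtain ⟨φ, hφ, hφ'⟩ := up_phase (q * inner ℂ x v)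
  obtain ⟨s, hs⟩ : ∃ s, s = Real.sqrt (1 - ‖q‖ ^ 2) := ⟨_, rfl⟩
  have hs0 : 0 ≤ s := by rw [hs]; exact Real.sqrt_nonneg _
  have hs2 : s ^ 2 = 1 - ‖q‖ ^ 2 := by
    rw [hs, Real.sq_sqrt]
    have := norm_nonneg q
    nlinarith
  have h7 : Real.sqrt (‖v‖ ^ 2 - ‖(inner ℂ x v : ℂ)‖ ^ 2) = ‖v'‖ := by
    rw [← h2, Real.sqrt_sq (norm_nonneg _)]
  refine ⟨(starRingEnd ℂ) q • x + ((starRingEnd ℂ) φ * (s : ℂ)) • n, ?_, ?_, ?_⟩
  · have h3 : inner ℂ ((starRingEnd ℂ) q • x) (((starRingEnd ℂ) φ * (s : ℂ)) • n) = (0 : ℂ) := by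
      rw [inner_smul_left, inner_smul_right, hxn, mul_zero, mul_zero]
    have h4 := norm_add_sq_eq_norm_sq_add_norm_sq_of_inner_eq_zero _ _ h3
    rw [norm_smul, norm_smul, hx, hn, norm_mul, RCLike.norm_conj, RCLike.norm_conj, hφ,
      Complex.norm_real, Real.norm_eq_abs, abs_of_nonneg hs0] at h4
    have h5 : 0 ≤ ‖(starRingEnd ℂ) q • x + ((starRingEnd ℂ) φ * (s : ℂ)) • n‖ := norm_nonneg _
    nlinarith
  · rw [inner_add_left, inner_smul_left, inner_smul_left, up_self hx, hnx, mul_zero, add_zero,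
      mul_one, Complex.conj_conj]
  · rw [← hs, h7]
    have h8 : (inner ℂ ((starRingEnd ℂ) q • x + ((starRingEnd ℂ) φ * (s : ℂ)) • n) v : ℂ) =
        φ * ((‖q‖ * ‖(inner ℂ x v : ℂ)‖ + s * ‖v'‖ : ℝ) : ℂ) := by
      have e1 : (inner ℂ n v : ℂ) = ((‖v'‖ : ℝ) : ℂ) := by
        have e2 : (inner ℂ n v : ℂ) = inner ℂ n ((inner ℂ x v : ℂ) • x + ((‖v'‖ : ℝ) : ℂ) • n) := by
          rw [← hvn, ← hv]
        rw [e2, inner_add_right, inner_smul_right, inner_smul_right, hnx, mul_zero, zero_add,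
          up_self hn, mul_one]
      rw [inner_add_left, inner_smul_left, inner_smul_left, e1, Complex.conj_conj, hφ', norm_mul,
        map_mul, Complex.conj_conj, Complex.conj_ofReal]
      push_cast
      ring
    rw [h8, norm_mul, hφ, one_mul, Complex.norm_real, Real.norm_eq_abs, abs_of_nonneg (by positivity)]

end Pool.Agent.H270.QP
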