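import Pool.Agent.H270.QP.Defs

/-!
# QP: Crouzeix's bound for similarities by rank one perturbations of the identity (helper253)
-/

set_option autoImplicit false

open Polynomial Filter Topology

namespace Pool.Agent.H270.QP

open Pool.Agent.Helper324_QNR Pool.Agent.W753.CZ

section

variable {H : Type*} [NormedAddCommGroup H] [InnerProductSpace ℂ H] [CompleteSpace H]

/-- the norm of `Sc w k⁻¹ u` -/
theorem basic_norm (w : H) (hw : ‖w‖ = 1) (k : ℝ) (hk : k ≠ 0) (u : H) :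
    k ^ 2 * ‖Sc w k⁻¹ u‖ ^ 2 = k ^ 2 * ‖u‖ ^ 2 - (k ^ 2 - 1) * ‖(inner ℂ w u : ℂ)‖ ^ 2 := by
  rw [Sc_norm w hw]
  field_simp
  ring

theorem basic_main (A : H →L[ℂ] H) (q : ℂ) (hq0 : 0 < ‖q‖) (hq1 : ‖q‖ ≤ 1)
    (hd : ‖q‖ = 1 ∨ HasOrth H) (p : ℂ[X]) (M : ℝ) (hM : ∀ z ∈ Om A q, ‖p.eval z‖ ≤ M)
    (x : H) (hx : ‖x‖ = 1) (v : H) :
    kap q ^ 2 * ‖aeval A p v‖ ^ 2 - (kap q ^ 2 - 1) * ‖(inner ℂ x (aeval A p v) : ℂ)‖ ^ 2 ≤
      (2 * M) ^ 2 * (kap q ^ 2 * ‖v‖ ^ 2 - (kap q ^ 2 - 1) * ‖(inner ℂ x v : ℂ)‖ ^ 2) := by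
  have hk1 := kap_ge q hq0 hq1
  have hk0 : 0 < kap q := by linarith
  have : Nontrivial H := ⟨⟨x, 0, fun h => by rw [h, norm_zero] at hx; exact zero_ne_one hx⟩⟩
  set k := kap q with hk
  set S := Sc x k with hS
  set R := Sc x k⁻¹ with hR
  have hSR : S * R = 1 := Sc_mul x hx k hk0.ne'
  have hRS : R * S = 1 := by
    have := Sc_mul x hx k⁻¹ (inv_ne_zero hk0.ne')
    rwa [inv_inv] at this
  set B := R * A * S with hB
  have hBR : B * R = R * A := by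
    rw [hB, mul_assoc, hSR, mul_one]
  have hnr : ∀ w ∈ numRange B, ‖p.eval w‖ ≤ M := by
    rintro _ ⟨w, hw, rfl⟩
    have h1 : inner ℂ w (B w) = inner ℂ (R w) (A (S w)) := by
      rw [hB]
      exact (Sc_symm x k⁻¹ w (A (S w))).symm
    rw [h1]
    apply pair_bound A q hq0 hq1 hd p M hM
    · rw [hR, Sc_symm, ← hR]
      have : R (S w) = w := by
        have := congrArg (fun T : H →L[ℂ] H => T w) hRS
        exact this
      rw [this, inner_self_eq_norm_sq_to_K, hw]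
      simp
    · have h2 := Sc_norm_mul x hx k hk0 w hw
      calc ‖q‖ * (‖S w‖ * ‖R w‖) ≤ ‖q‖ * ((k + k⁻¹) / 2) := by gcongr
        _ = 1 := kap_avg q hq0 hq1
  have hcz := crouzeix_bound B p M hnr
  have hM0 : 0 ≤ 2 * M := (norm_nonneg _).trans hcz
  set T := aeval A p with hT
  have hBT : (aeval B p) (R v) = R (T v) := by
    have h1 : aeval B p * R = R * T := aeval_intertwine B A R hBR p
    have h2 := congrArg (fun F : H →L[ℂ] H => F v) h1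
    exact h2
  have h3 : ‖R (T v)‖ ≤ 2 * M * ‖R v‖ := by
    rw [← hBT]
    exact ((aeval B p).le_opNorm (R v)).trans (mul_le_mul_of_nonneg_right hcz (norm_nonneg _))
  have h4 : ‖R (T v)‖ ^ 2 ≤ (2 * M * ‖R v‖) ^ 2 := pow_le_pow_left₀ (norm_nonneg _) h3 2
  rw [← basic_norm x hx k hk0.ne', ← basic_norm x hx k hk0.ne', ← hR]
  have h5 : k ^ 2 * ‖R (T v)‖ ^ 2 ≤ k ^ 2 * (2 * M * ‖R v‖) ^ 2 :=
    mul_le_mul_of_nonneg_left h4 (by positivity)
  calc k ^ 2 * ‖R (T v)‖ ^ 2 ≤ k ^ 2 * (2 * M * ‖R v‖) ^ 2 := h5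
    _ = _ := by ring

end

theorem t_basic (H : Type*) [NormedAddCommGroup H] [InnerProductSpace ℂ H] [CompleteSpace H] :
    S_basic H :=
  fun A q hq0 hq1 hd p M hM w hw v => basic_main A q hq0 hq1 hd p M hM w hw v

end Pool.Agent.H270.QP
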