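import Pool.Graph.R_pool_sql_team_seeded_620a6dc7.Helper324_QNR.Main

/-!
# Project QP (helper270, MP_16d611_an): sharp pointwise inequalities for scaled q-numerical ranges

The library module `Helper324_QNR.Main` (namespace `Pool.Agent.Helper324_QNR`) has: `Om A q` (scaled
q-numerical range of an operator on a Hilbert space), `kap q = (1+√(1-|q|²))/|q|`, `Sc x c` (the
operator 1 + (c-1)P_x) with `Sc_mul, Sc_symm, Sc_norm, Sc_norm_mul`, `pair_bound`, `basic`, `crude`,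
`qN p e N = (p - e) ∑_{k<N} (ē p)^k`, `qN_mul, qN_eval, moebius_op`. Read that file first: most proofs
below are modifications of proofs in it.

Below `K = Kc q = 2|q|/(1+√(1-|q|²)) = 2 / kap q`.
-/

set_option autoImplicit false

open Polynomial Filter Topology

namespace Pool.Agent.H270.QP

open Pool.Agent.Helper324_QNR

/-- `K(q) = 2|q|/(1+√(1-|q|²))`, which equals `2 / kap q`. -/
noncomputable def Kc (q : ℂ) : ℝ := 2 * ‖q‖ / (1 + Real.sqrt (1 - ‖q‖ ^ 2))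

/-- every vector has a unit vector orthogonal to it -/
def HasOrth (H : Type*) [NormedAddCommGroup H] [InnerProductSpace ℂ H] : Prop :=
  ∀ x : H, ∃ w : H, ‖w‖ = 1 ∧ inner ℂ x w = 0

/-- the region of pairs `(ζ, β)` -/
def Reg (K : ℝ) : Set (ℂ × ℝ) :=
  {z | ‖z.1‖ ^ 2 ≤ z.2 ∧ K * (z.2 - 1) ≤ (K ^ 2 - 1) * Real.sqrt (z.2 - ‖z.1‖ ^ 2)}

/-- the value of `max (c z + s h)`, with `c = √(1-s²)`, over the region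
`K (z² + h² - 1) ≤ (K² - 1) h`, `z, h ≥ 0` -/
noncomputable def G (K s : ℝ) : ℝ :=
  if s * (1 + K ^ 2) ≤ 1 - K ^ 2 then Real.sqrt (1 - s ^ 2) else ((1 + s) * K + (1 - s) / K) / 2

section

variable (H : Type*) [NormedAddCommGroup H] [InnerProductSpace ℂ H] [CompleteSpace H]

/-- `S_basic`: Crouzeix's bound for `R A S` with `S = Sc w k`, `R = Sc w k⁻¹`, applied to the vector `R v`.
PROOF: copy the proof of `basic` in the library file. With `B = R * A * S` one has `B * R = R * A`, so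
`aeval B p * R = R * aeval A p` (`aeval_intertwine`), so `‖R (T v)‖ = ‖(aeval B p) (R v)‖ ≤ 2 M ‖R v‖`, and
by `Sc_norm`, `k² ‖R u‖² = k² ‖u‖² - (k² - 1) |⟨w,u⟩|²` for every u. -/
def S_basic : Prop :=
  ∀ (A : H →L[ℂ] H) (q : ℂ), 0 < ‖q‖ → ‖q‖ ≤ 1 → (‖q‖ = 1 ∨ HasOrth H) →
    ∀ (p : ℂ[X]) (M : ℝ), (∀ z ∈ Om A q, ‖p.eval z‖ ≤ M) → ∀ w : H, ‖w‖ = 1 → ∀ v : H,
      kap q ^ 2 * ‖aeval A p v‖ ^ 2 - (kap q ^ 2 - 1) * ‖(inner ℂ w (aeval A p v) : ℂ)‖ ^ 2 ≤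
        (2 * M) ^ 2 * (kap q ^ 2 * ‖v‖ ^ 2 - (kap q ^ 2 - 1) * ‖(inner ℂ w v : ℂ)‖ ^ 2)

/-- `S_moeb`: Moebius transforms of `T = p(A)`.
PROOF: put `v = u - ē T u = (1 - ē T) u`. By `qN_mul`, `aeval A (qN p e N) v = (T - e)(1 - (ē T)^N) u`.
By `qN_eval`, `|qN p e N| ≤ 1 + |e|^N` on `Om A q`; apply `S_basic` to `qN p e N`, `M = 1 + |e|^N`, and the
vector `v`, and let N → ∞: `‖(ē T)^N u‖ ≤ |e|^N ‖T^N‖ ‖u‖ ≤ |e|^N * 2 * ‖u‖` because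
`‖T^N‖ = ‖aeval A (p^N)‖ ≤ 2` by `crude` (or `S_basic` plus `kap_ge`), so the left side converges to the one
with `(T - e) u` (the limit argument is as in `moebius_op` of the library; note that there `‖ēT‖ < 1` was
assumed, here use `‖T^N‖ ≤ 2` instead). -/
def S_moeb : Prop :=
  ∀ (A : H →L[ℂ] H) (q : ℂ), 0 < ‖q‖ → ‖q‖ ≤ 1 → (‖q‖ = 1 ∨ HasOrth H) →
    ∀ (p : ℂ[X]), (∀ z ∈ Om A q, ‖p.eval z‖ ≤ 1) → ∀ e : ℂ, ‖e‖ < 1 → ∀ w : H, ‖w‖ = 1 → ∀ u : H,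
      kap q ^ 2 * ‖aeval A p u - e • u‖ ^ 2
          - (kap q ^ 2 - 1) * ‖(inner ℂ w (aeval A p u - e • u) : ℂ)‖ ^ 2 ≤
        4 * (kap q ^ 2 * ‖u - (starRingEnd ℂ) e • aeval A p u‖ ^ 2
          - (kap q ^ 2 - 1) * ‖(inner ℂ w (u - (starRingEnd ℂ) e • aeval A p u) : ℂ)‖ ^ 2)

/-- `S_geom`: the geometric core. `K = 2/k`.
PROOF. Put `ζ = ⟨x,y⟩ = inner x y`, `β = ‖y‖²`, `h = √(β - |ζ|²)` (Cauchy-Schwarz: the radicand is ≥ 0).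
If `β ≤ 1` and... (no case needed in general, but) if `|ζ| = 1` and `β = 1` the claim is `0 ≤ 0`.
Otherwise choose `t ∈ [0,1)` with `|ζ| - t(1+β) + t²|ζ| = 0`: the continuous function
`g(t) = |ζ| - t(1+β) + t²|ζ|` has `g(0) = |ζ| ≥ 0` and `g(1) = 2|ζ| - 1 - β ≤ 2|ζ| - 1 - |ζ|² = -(1-|ζ|)² ≤ 0`, and
`g(1) = 0` only if `|ζ| = 1` and `β = 1`. (IVT on [0,1]; if g(1) < 0 the root is < 1.)
Let `e = t ζ/|ζ|` (e = 0 if ζ = 0), `P = y - e x`, `R = x - ē y`. Then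
`inner R P = ζ - e(1+β) + e² conj ζ = (ζ/|ζ|) g(t) = 0` (check the sides of the inner product; Mathlib's inner is
linear in the second argument: inner x y = ζ).
`‖R‖² - ‖P‖² = (1 - |e|²)(1 - β)` by expanding, and `‖P‖² ‖R‖² - |inner R P|² = (1-|e|²)² (β - |ζ|²)` (Gram
determinant), so `‖P‖ ‖R‖ = (1 - |e|²) h`.
If `R = 0`: the hypothesis with the unit vector w = x gives `k²‖P‖² - (k²-1)|⟨x,P⟩|² ≤ 0`, and since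
`|⟨x,P⟩| ≤ ‖P‖` this gives `‖P‖² ≤ 0`; then `x = ē y`, `y = e x` gives `1 = |e|²`, contradiction.
If `R ≠ 0` use `w = R/‖R‖`: `⟨w,P⟩ = 0`, `|⟨w,R⟩| = ‖R‖`, so `k²‖P‖² ≤ 4‖R‖²`, i.e. `‖P‖ ≤ K‖R‖`. Hence
`(‖P‖ - K‖R‖)(K‖P‖ + ‖R‖) ≤ 0`, i.e. `K(‖P‖² - ‖R‖²) ≤ (K²-1)‖P‖‖R‖`, i.e.
`K(β-1)(1-|e|²) ≤ (K²-1)(1-|e|²)h`; divide by `1-|e|² > 0`. -/
def S_geom : Prop :=
  ∀ (k : ℝ), 1 ≤ k → ∀ x y : H, ‖x‖ = 1 →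
    (∀ e : ℂ, ‖e‖ < 1 → ∀ w : H, ‖w‖ = 1 →
      k ^ 2 * ‖y - e • x‖ ^ 2 - (k ^ 2 - 1) * ‖(inner ℂ w (y - e • x) : ℂ)‖ ^ 2 ≤
        4 * (k ^ 2 * ‖x - (starRingEnd ℂ) e • y‖ ^ 2
          - (k ^ 2 - 1) * ‖(inner ℂ w (x - (starRingEnd ℂ) e • y) : ℂ)‖ ^ 2)) →
    (2 / k) * (‖y‖ ^ 2 - 1) ≤ ((2 / k) ^ 2 - 1) * Real.sqrt (‖y‖ ^ 2 - ‖(inner ℂ x y : ℂ)‖ ^ 2)

/-- the rank one nilpotent `x ↦ ⟨f, x⟩ e` -/
noncomputable def J (e f : H) : H →L[ℂ] H := (innerSL ℂ f).smulRight e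

/-- `S_nil`: the scaled q-range of the nilpotent `J e f` lies in the disc of radius `1/K`.
PROOF: this is `nil_range` in `Pool/Graph/R_pool_sql_team_seeded_64922ed1/Results/MP_16d611_an/FullBound.lean`
(`2 |⟨f,x⟩| |⟨y,e⟩| ≤ 1 + √(1-|⟨y,x⟩|²)`); copy that proof (replace the two auxiliary lemmas it cites
from X24.QN by direct computations) rather than importing that file. -/
def S_nil : Prop :=
  ∀ (e f : H), ‖e‖ = 1 → ‖f‖ = 1 → inner ℂ f e = (0 : ℂ) → ∀ q : ℂ, 0 < ‖q‖ → ‖q‖ ≤ 1 →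
    ∀ z ∈ Om (J H e f) q, Kc q * ‖z‖ ≤ 1

/-- `S_fam`: functions of the nilpotent. For N ≥ 2,
`aeval J (qN (C K * X) a N) = (K J - a)(1 + ā K J) = -a + (1 - |a|²) K J` because `J² = 0`. -/
def S_fam : Prop :=
  ∀ (e f : H), ‖e‖ = 1 → ‖f‖ = 1 → inner ℂ f e = (0 : ℂ) → ∀ (K : ℝ) (a : ℂ) (N : ℕ), 2 ≤ N →
    ∀ x : H, aeval (J H e f) (qN (C (K : ℂ) * X) a N) x =
      (((1 - ‖a‖ ^ 2) * K : ℝ) : ℂ) • ((inner ℂ f x : ℂ) • e) - a • x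

/-- `S_dense`: every point of the region is a limit.
PROOF. Write `h = √(β - |ζ|²)`, so `β = |ζ|² + h²`.
Case h = 0: then `K(|ζ|²-1) ≤ 0`, so `|ζ| ≤ 1`; take `A = 0`, `p = C ζ`, `x = f`.
Case h > 0: let `ζ = u |ζ|`, |u| = 1 (u = 1 if ζ = 0). By `S_root` (with z = |ζ|) get a, x₁, x₂. Let
`A = J e f`, `x = x₁ e + x₂ f`, `K = Kc q`, `p_N = C (u/(1+|a|^N)) * qN (C K * X) a N`. By `S_nil`, `|K z| ≤ 1` on `Om A q`,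
so `|p_N| ≤ 1` there (`qN_eval`, with the polynomial C K * X). By `S_fam`, for N ≥ 2,
`(1+|a|^N) ū p_N(A) x = -a x + (1-a²) K x₂ e =: y`, `inner x y = -a + (1-a²) K x₁ x₂ = |ζ|`, and
`‖y‖² = |inner x y|² + h²` because `y - ⟨x,y⟩x` is `(1-a²)K x₂ (e - x₁ x)`, whose norm is
`(1-a²) K |x₂|·|x₂| = h`. So the pair of p_N is `(ζ/(1+|a|^N), β/(1+|a|^N)²)`, which tends to `(ζ, β)`. -/
def S_dense : Prop :=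
  ∀ (e f : H), ‖e‖ = 1 → ‖f‖ = 1 → inner ℂ f e = (0 : ℂ) → ∀ q : ℂ, 0 < ‖q‖ → ‖q‖ ≤ 1 →
    ∀ ζ : ℂ, ∀ β : ℝ, (ζ, β) ∈ Reg (Kc q) → ∀ ε : ℝ, 0 < ε →
      ∃ (A : H →L[ℂ] H) (p : ℂ[X]) (x : H), (∀ z ∈ Om A q, ‖p.eval z‖ ≤ 1) ∧ ‖x‖ = 1 ∧
        ‖(inner ℂ x (aeval A p x) : ℂ) - ζ‖ < ε ∧ |‖aeval A p x‖ ^ 2 - β| < ε

/-- `S_up`: Cauchy-Schwarz. For unit x, y and any vector v (think v = B x), with `c = |⟨y,x⟩|`: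
`|⟨y,v⟩| ≤ c |⟨x,v⟩| + √(1-c²) √(‖v‖² - |⟨x,v⟩|²)`.
PROOF: `v = ζ x + v'`, `v' ⊥ x`, `‖v'‖² = ‖v‖² - |ζ|²`; `y = ⟨x,y⟩ x + y'`, `‖y'‖² = 1 - c²`. -/
def S_up : Prop :=
  ∀ x y v : H, ‖x‖ = 1 → ‖y‖ = 1 →
    ‖(inner ℂ y v : ℂ)‖ ≤ ‖(inner ℂ y x : ℂ)‖ * ‖(inner ℂ x v : ℂ)‖
      + Real.sqrt (1 - ‖(inner ℂ y x : ℂ)‖ ^ 2) * Real.sqrt (‖v‖ ^ 2 - ‖(inner ℂ x v : ℂ)‖ ^ 2)

/-- `S_ach`: the bound of `S_up` is attained for a suitable y with prescribed `⟨y,x⟩ = q`.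
PROOF: `v = ζ x + v'`; let `n` be the unit vector `v'/‖v'‖` if `v' ≠ 0`, else any unit vector orthogonal to x
(HasOrth). Put `y = conj q • x + (conj-phase) √(1-|q|²) • n`, where the unimodular phase is chosen such that
`⟨y,v⟩ = q ζ + phase √(1-|q|²) ‖v'‖` has modulus `|q||ζ| + √(1-|q|²)‖v'‖`. -/
def S_ach : Prop :=
  HasOrth H → ∀ (x v : H), ‖x‖ = 1 → ∀ q : ℂ, ‖q‖ ≤ 1 →
    ∃ y : H, ‖y‖ = 1 ∧ inner ℂ y x = q ∧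
      ‖(inner ℂ y v : ℂ)‖ = ‖q‖ * ‖(inner ℂ x v : ℂ)‖
        + Real.sqrt (1 - ‖q‖ ^ 2) * Real.sqrt (‖v‖ ^ 2 - ‖(inner ℂ x v : ℂ)‖ ^ 2)

end

/-- `S_root`: real parameters.
PROOF: `Ψ(a) = K h (1-a²) - h² - (a+z)²` is continuous, `Ψ(-1) = -h² - (z-1)² < 0`, and with
`a₀ = -z/(1+K h)`: `Ψ(a₀) = K h - h² - K h z²/(1+K h) = h/(1+K h) * ((K-h)(1+K h) - K z²)`, which is ≥ 0 because the
hypothesis is equivalent to `(h-K)(1+K h) + K z² ≤ 0` (expand). So (intermediate_value_uIcc) there is `a` with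
`Ψ(a) = 0`. Then `K h (1-a²) = h² + (a+z)² ≥ h² > 0`, so `a² < 1` and `K(1-a²) ≥ h`. Put
`r = h/(K(1-a²)) ∈ (0,1]`, `x₂ = √r`, `x₁ = ±√(1-r)` with the sign of `a+z`. Then `(1-a²)K x₂² = h`, and
`((1-a²) K x₁ x₂)² = (1-a²)²K² r (1-r) = h((1-a²)K - h) = (a+z)²`, with matching signs. -/
def S_root : Prop :=
  ∀ K h z : ℝ, 0 < K → 0 < h → 0 ≤ z → K * (z ^ 2 + h ^ 2 - 1) ≤ (K ^ 2 - 1) * h →
    ∃ a x₁ x₂ : ℝ, |a| < 1 ∧ x₁ ^ 2 + x₂ ^ 2 = 1 ∧ h = (1 - a ^ 2) * K * x₂ ^ 2 ∧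
      z = -a + (1 - a ^ 2) * K * (x₁ * x₂)

/-- `S_max`: the maximum of `c z + s h` over the region.
PROOF. (Upper bound.) With `h₀ = (K-1/K)/2`, `ρ = (K+1/K)/2` the hypothesis is `z² + (h-h₀)² ≤ ρ²`, so
`c z + s (h-h₀) ≤ ρ` (Cauchy-Schwarz, c² + s² = 1), i.e. `c z + s h ≤ ρ + s h₀ = ((1+s)K + (1-s)/K)/2`.
In the case `s(1+K²) ≤ 1-K²` (so K ≤ 1) one needs `c z + s h ≤ c` for h, z ≥ 0: from
`z² ≤ 1 - h² - (1/K-K) h` and `s ≤ (1-K²)/(1+K²)`. If s h ≥ c... note `h ≤ K` (from the hypothesis, as in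
`(h-K)(1+Kh) ≤ -K z² ≤ 0`), and `s K ≤ c` because `s ≤ (1-K²)/(1+K²)` gives `c ≥ 2K/(1+K²)`. Then it suffices
`c² z² ≤ (c - s h)²`; `c²(1 - h² - (1/K-K)h) ≤ c² - 2 c s h + s² h²` reduces to
`2 c s ≤ c²(1/K-K) + h` , which follows from `2 s ≤ c (1/K-K)`: `2 s K ≤ c (1-K²)`, true since
`s ≤ (1-K²)/(1+K²)` and `c ≥ 2K/(1+K²)`.
(Attained.) In the first case `z = 1, h = 0`; in the second `z = c ρ`, `h = h₀ + ρ s > 0`... (≥ 0). -/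
def S_max : Prop :=
  ∀ K s : ℝ, 0 < K → 0 ≤ s → s ≤ 1 →
    (∀ z h : ℝ, 0 ≤ z → 0 ≤ h → K * (z ^ 2 + h ^ 2 - 1) ≤ (K ^ 2 - 1) * h →
      Real.sqrt (1 - s ^ 2) * z + s * h ≤ G K s) ∧
    ∃ z h : ℝ, 0 ≤ z ∧ 0 ≤ h ∧ K * (z ^ 2 + h ^ 2 - 1) ≤ (K ^ 2 - 1) * h ∧
      Real.sqrt (1 - s ^ 2) * z + s * h = G K s

/-- `S_54`: the diagonal value is `5/4`: `G (Kc q) (√(1-|q|²)) = 5/4 |q|`.
PROOF: `t = |q|`, `s = √(1-t²)`, `K = 2t/(1+s)`, `t² = (1-s)(1+s)`. The condition `s(1+K²) ≤ 1-K²` reads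
`s((1+s)² + 4t²) ≤ (1+s)² - 4t²`, i.e. `s(5-3s) ≤ 5s-3`, i.e. `s² ≥ 1`, impossible for t > 0; then
`((1+s)K + (1-s)/K)/2 = t + (1-s)(1+s)/(4t) = t + t/4`. -/
def S_54 : Prop :=
  ∀ q : ℂ, 0 < ‖q‖ → ‖q‖ ≤ 1 → G (Kc q) (Real.sqrt (1 - ‖q‖ ^ 2)) = 5 / 4 * ‖q‖

end Pool.Agent.H270.QP
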