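import Pool.Agent.H270.QP.Defs

/-!
# Project QP (helper270): `S_dense`, every point of the region is a limit
-/

set_option autoImplicit false

open Polynomial Filter Topology

namespace Pool.Agent.H270.QP

open Pool.Agent.Helper324_QNR

section

variable {H : Type*} [NormedAddCommGroup H] [InnerProductSpace ℂ H]

theorem dense_inner {e f : H} (he : ‖e‖ = 1) (hf : ‖f‖ = 1) (hfe : inner ℂ f e = (0 : ℂ))
    (a b c d : ℝ) :
    inner ℂ ((a : ℂ) • e + (b : ℂ) • f) ((c : ℂ) • e + (d : ℂ) • f) =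
      ((a * c + b * d : ℝ) : ℂ) := by
  have hef : inner ℂ e f = (0 : ℂ) := by
    rw [← inner_conj_symm, hfe, map_zero]
  have hee : inner ℂ e e = (1 : ℂ) := by
    rw [inner_self_eq_norm_sq_to_K, he]
    simp
  have hff : inner ℂ f f = (1 : ℂ) := by
    rw [inner_self_eq_norm_sq_to_K, hf]
    simp
  rw [inner_add_left, inner_add_right, inner_add_right, inner_smul_left, inner_smul_left,
    inner_smul_left, inner_smul_left, inner_smul_right, inner_smul_right, inner_smul_right,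
    inner_smul_right, hef, hfe, hee, hff]
  simp only [Complex.conj_ofReal]
  push_cast
  ring

theorem dense_norm {e f : H} (he : ‖e‖ = 1) (hf : ‖f‖ = 1) (hfe : inner ℂ f e = (0 : ℂ))
    (a b : ℝ) : ‖(a : ℂ) • e + (b : ℂ) • f‖ ^ 2 = a ^ 2 + b ^ 2 := by
  have h := dense_inner he hf hfe a b a b
  rw [inner_self_eq_norm_sq_to_K] at h
  have h2 : ((‖(a : ℂ) • e + (b : ℂ) • f‖ ^ 2 : ℝ) : ℂ) = ((a * a + b * b : ℝ) : ℂ) := by
    rw [← h]
    push_cast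
    rfl
  have h3 := Complex.ofReal_injective h2
  rw [h3]
  ring

theorem dense_unit (ζ : ℂ) : ∃ u : ℂ, ‖u‖ = 1 ∧ ζ = u * (‖ζ‖ : ℂ) := by
  by_cases h : ζ = 0
  · exact ⟨1, norm_one, by rw [h]; simp⟩
  · have hn : (‖ζ‖ : ℂ) ≠ 0 := by exact_mod_cast norm_ne_zero_iff.2 h
    refine ⟨ζ / ‖ζ‖, ?_, by rw [div_mul_cancel₀ _ hn]⟩
    rw [norm_div, Complex.norm_real, norm_norm, div_self (norm_ne_zero_iff.2 h)]

theorem dense_lim (a : ℝ) (ha : |a| < 1) (ζ : ℂ) (β ε : ℝ) (hε : 0 < ε) :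
    ∃ N : ℕ, 2 ≤ N ∧ ‖((1 / (1 + |a| ^ N) : ℝ) : ℂ) * ζ - ζ‖ < ε ∧
      |(1 / (1 + |a| ^ N)) ^ 2 * β - β| < ε := by
  have h0 : Tendsto (fun N : ℕ => |a| ^ N) atTop (𝓝 0) :=
    tendsto_pow_atTop_nhds_zero_of_lt_one (abs_nonneg a) ha
  have h1 : Tendsto (fun N : ℕ => 1 / (1 + |a| ^ N)) atTop (𝓝 (1 / (1 + 0))) :=
    tendsto_const_nhds.div (tendsto_const_nhds.add h0) (by norm_num)
  rw [add_zero, div_one] at h1
  have h2 : Tendsto (fun N : ℕ => ‖((1 / (1 + |a| ^ N) : ℝ) : ℂ) * ζ - ζ‖) atTop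
      (𝓝 ‖((1 : ℝ) : ℂ) * ζ - ζ‖) :=
    ((((Complex.continuous_ofReal.tendsto 1).comp h1).mul_const ζ).sub_const ζ).norm
  have h3 : Tendsto (fun N : ℕ => |(1 / (1 + |a| ^ N)) ^ 2 * β - β|) atTop
      (𝓝 |(1 : ℝ) ^ 2 * β - β|) := (((h1.pow 2).mul_const β).sub_const β).abs
  have e2 : ‖((1 : ℝ) : ℂ) * ζ - ζ‖ < ε := by
    rw [Complex.ofReal_one, one_mul, sub_self, norm_zero]
    exact hε
  have e3 : |(1 : ℝ) ^ 2 * β - β| < ε := by
    rw [one_pow, one_mul, sub_self, abs_zero]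
    exact hε
  obtain ⟨N, h4, h5, h6⟩ := ((eventually_ge_atTop 2).and
    ((h2.eventually (gt_mem_nhds e2)).and (h3.eventually (gt_mem_nhds e3)))).exists
  exact ⟨N, h4, h5, h6⟩

theorem dense_Kpos {q : ℂ} (hq : 0 < ‖q‖) : 0 < Kc q := by
  unfold Kc
  have := Real.sqrt_nonneg (1 - ‖q‖ ^ 2)
  positivity

end

theorem t_dense (H : Type*) [NormedAddCommGroup H] [InnerProductSpace ℂ H] [CompleteSpace H]
    (h1 : S_root) (h2 : S_nil H) (h3 : S_fam H) : S_dense H := by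
  intro e f he hf hfe q hq0 hq1 ζ β hReg ε hε
  obtain ⟨hβ, hK⟩ := hReg
  simp only at hβ hK
  have hKpos := dense_Kpos hq0
  set K := Kc q with hKdef
  rcases hβ.eq_or_lt with hβ0 | hβ0
  · -- `h = 0`
    rw [← hβ0, sub_self, Real.sqrt_zero, mul_zero] at hK
    have hζ : ‖ζ‖ ≤ 1 := by
      have : ‖ζ‖ ^ 2 - 1 ≤ 0 := nonpos_of_mul_nonpos_right hK hKpos
      nlinarith [norm_nonneg ζ]
    refine ⟨0, C ζ, f, fun z _ => by rw [eval_C]; exact hζ, hf, ?_, ?_⟩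
    · rw [aeval_C, Algebra.algebraMap_eq_smul_one]
      have : inner ℂ f ((ζ • (1 : H →L[ℂ] H)) f) = ζ := by
        show inner ℂ f (ζ • f) = ζ
        rw [inner_smul_right, inner_self_eq_norm_sq_to_K, hf]
        simp
      rw [this, sub_self, norm_zero]
      exact hε
    · rw [aeval_C, Algebra.algebraMap_eq_smul_one]
      have : ‖(ζ • (1 : H →L[ℂ] H)) f‖ = ‖ζ‖ := by
        show ‖ζ • f‖ = ‖ζ‖
        rw [norm_smul, hf, mul_one]
      rw [this, hβ0, sub_self, abs_zero]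
      exact hε
  · set h := Real.sqrt (β - ‖ζ‖ ^ 2) with hh
    have hhpos : 0 < h := Real.sqrt_pos.2 (by linarith)
    have hh2 : h ^ 2 = β - ‖ζ‖ ^ 2 := Real.sq_sqrt (by linarith)
    obtain ⟨a, x₁, x₂, ha, hx, hh', hz⟩ := h1 K h ‖ζ‖ hKpos hhpos (norm_nonneg ζ) (by
      have : ‖ζ‖ ^ 2 + h ^ 2 - 1 = β - 1 := by linarith
      rw [this]
      exact hK)
    obtain ⟨u, hu, hζu⟩ := dense_unit ζ
    obtain ⟨N, hN, hN1, hN2⟩ := dense_lim a ha ζ β ε hε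
    have hs : 0 < 1 + |a| ^ N := by positivity
    have hnorma : ‖(a : ℂ)‖ = |a| := by rw [Complex.norm_real, Real.norm_eq_abs]
    have hxn : ‖(x₁ : ℂ) • e + (x₂ : ℂ) • f‖ = 1 := by
      have h5 := dense_norm he hf hfe x₁ x₂
      rw [hx] at h5
      nlinarith [norm_nonneg ((x₁ : ℂ) • e + (x₂ : ℂ) • f)]
    have hfx : inner ℂ f ((x₁ : ℂ) • e + (x₂ : ℂ) • f) = (x₂ : ℂ) := by
      have h5 := dense_inner he hf hfe 0 1 x₁ x₂
      rw [Complex.ofReal_zero, Complex.ofReal_one, zero_smul, one_smul, zero_add, zero_mul,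
        one_mul, zero_add] at h5
      exact h5
    have hy : aeval (J H e f) (qN (C (K : ℂ) * X) (a : ℂ) N) ((x₁ : ℂ) • e + (x₂ : ℂ) • f) =
        (((1 - a ^ 2) * K * x₂ - a * x₁ : ℝ) : ℂ) • e + ((-(a * x₂) : ℝ) : ℂ) • f := by
      rw [h3 e f he hf hfe K a N hN, hfx, hnorma, sq_abs]
      push_cast
      module
    refine ⟨J H e f, C (u * ((1 / (1 + |a| ^ N) : ℝ) : ℂ)) * qN (C (K : ℂ) * X) (a : ℂ) N,
      (x₁ : ℂ) • e + (x₂ : ℂ) • f, ?_, hxn, ?_, ?_⟩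
    · intro z hz'
      have h5 := h2 e f he hf hfe q hq0 hq1 z hz'
      have h6 : ‖(C (K : ℂ) * X : ℂ[X]).eval z‖ ≤ 1 := by
        rw [eval_mul, eval_C, eval_X, norm_mul, Complex.norm_real, Real.norm_of_nonneg hKpos.le]
        exact h5
      have h7 := qN_eval (C (K : ℂ) * X) (a : ℂ) (by rw [hnorma]; exact ha) N z h6
      rw [hnorma] at h7
      rw [eval_mul, eval_C, norm_mul, norm_mul, hu, one_mul, Complex.norm_real,
        Real.norm_of_nonneg (by positivity), one_div, inv_mul_le_iff₀ hs, mul_one]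
      exact h7
    · rw [map_mul, aeval_C, Algebra.algebraMap_eq_smul_one, smul_mul_assoc, one_mul]
      have h5 : inner ℂ ((x₁ : ℂ) • e + (x₂ : ℂ) • f)
          (((u * ((1 / (1 + |a| ^ N) : ℝ) : ℂ)) •
            aeval (J H e f) (qN (C (K : ℂ) * X) (a : ℂ) N)) ((x₁ : ℂ) • e + (x₂ : ℂ) • f)) =
          ((1 / (1 + |a| ^ N) : ℝ) : ℂ) * ζ := by
        show inner ℂ ((x₁ : ℂ) • e + (x₂ : ℂ) • f) ((u * ((1 / (1 + |a| ^ N) : ℝ) : ℂ)) •
          (aeval (J H e f) (qN (C (K : ℂ) * X) (a : ℂ) N) ((x₁ : ℂ) • e + (x₂ : ℂ) • f))) = _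
        rw [hy, inner_smul_right, dense_inner he hf hfe]
        have h6 : x₁ * ((1 - a ^ 2) * K * x₂ - a * x₁) + x₂ * -(a * x₂) = ‖ζ‖ := by
          rw [hz]
          linear_combination (-a) * hx
        rw [h6]
        conv_rhs => rw [hζu]
        ring
      rw [h5]
      exact hN1
    · rw [map_mul, aeval_C, Algebra.algebraMap_eq_smul_one, smul_mul_assoc, one_mul]
      have h5 : ‖((u * ((1 / (1 + |a| ^ N) : ℝ) : ℂ)) •
            aeval (J H e f) (qN (C (K : ℂ) * X) (a : ℂ) N)) ((x₁ : ℂ) • e + (x₂ : ℂ) • f)‖ ^ 2 =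
          (1 / (1 + |a| ^ N)) ^ 2 * β := by
        have h6 : ((u * ((1 / (1 + |a| ^ N) : ℝ) : ℂ)) •
            aeval (J H e f) (qN (C (K : ℂ) * X) (a : ℂ) N)) ((x₁ : ℂ) • e + (x₂ : ℂ) • f) =
          (u * ((1 / (1 + |a| ^ N) : ℝ) : ℂ)) •
          (aeval (J H e f) (qN (C (K : ℂ) * X) (a : ℂ) N) ((x₁ : ℂ) • e + (x₂ : ℂ) • f)) := rfl
        rw [h6, hy, norm_smul, norm_mul, hu, one_mul, Complex.norm_real,
          Real.norm_of_nonneg (by positivity), mul_pow, dense_norm he hf hfe]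
        have h7 : ((1 - a ^ 2) * K * x₂ - a * x₁) ^ 2 + (-(a * x₂)) ^ 2 = β := by
          have h8 : β = ‖ζ‖ ^ 2 + h ^ 2 := by linarith
          rw [h8, hz, hh']
          linear_combination (a ^ 2 - ((1 - a ^ 2) * K * x₂) ^ 2) * hx
        rw [h7]
      rw [h5]
      exact hN2

end Pool.Agent.H270.QP
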