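import Pool.Agent.H270.QP.Defs

/-!
# Polynomials of the rank one nilpotent
-/

set_option autoImplicit false

open Polynomial Filter Topology

namespace Pool.Agent.H270.QP

open Pool.Agent.Helper324_QNR

theorem fam_J_apply (H : Type*) [NormedAddCommGroup H] [InnerProductSpace ℂ H] [CompleteSpace H]
    (e f x : H) : J H e f x = (inner ℂ f x : ℂ) • e := by
  unfold J
  simp

theorem fam_J_sq (H : Type*) [NormedAddCommGroup H] [InnerProductSpace ℂ H] [CompleteSpace H]
    (e f : H) (h : inner ℂ f e = (0 : ℂ)) : J H e f * J H e f = 0 := by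
  ext x
  have h1 : (J H e f * J H e f) x = J H e f (J H e f x) := rfl
  rw [h1, fam_J_apply, fam_J_apply, inner_smul_right, h, mul_zero, zero_smul]
  rfl

/-- geometric sums of a nilpotent of order two -/
theorem fam_geom {R : Type*} [Ring R] (a : R) (h : a * a = 0) (N : ℕ) (hN : 2 ≤ N) :
    ∑ k ∈ Finset.range N, a ^ k = 1 + a := by
  induction N, hN using Nat.le_induction with
  | base => simp [Finset.sum_range_succ]
  | succ n hn ih =>
    have h0 : a ^ n = 0 := by
      obtain ⟨m, rfl⟩ := Nat.exists_eq_add_of_le hn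
      rw [pow_add, pow_two, h, zero_mul]
    rw [Finset.sum_range_succ, ih, h0, add_zero]

theorem t_fam (H : Type*) [NormedAddCommGroup H] [InnerProductSpace ℂ H] [CompleteSpace H] :
    S_fam H := by
  intro e f _ _ hef K a N hN x
  set T : H →L[ℂ] H := (K : ℂ) • J H e f with hT
  have hp : aeval (J H e f) (C (K : ℂ) * X) = T := by
    rw [map_mul, aeval_C, aeval_X, hT, Algebra.smul_def]
  have hTT : T * T = 0 := by
    rw [hT, smul_mul_smul_comm, fam_J_sq H e f hef, smul_zero]
  have hS : ((starRingEnd ℂ) a • T) * ((starRingEnd ℂ) a • T) = 0 := by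
    rw [smul_mul_smul_comm, hTT, smul_zero]
  have h1 : aeval (J H e f) (qN (C (K : ℂ) * X) a N) =
      (T - a • (1 : H →L[ℂ] H)) * (1 + (starRingEnd ℂ) a • T) := by
    unfold qN
    rw [map_mul, map_sub, aeval_C, map_sum, hp, Algebra.algebraMap_eq_smul_one]
    congr 1
    rw [← fam_geom _ hS N hN]
    refine Finset.sum_congr rfl fun k _ => ?_
    rw [map_pow, map_mul, aeval_C, hp, Algebra.smul_def]
  rw [h1]
  have h2 : (T - a • (1 : H →L[ℂ] H)) * (1 + (starRingEnd ℂ) a • T) =
      (((1 - ‖a‖ ^ 2 : ℝ) : ℂ)) • T - a • (1 : H →L[ℂ] H) := by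
    have h3 : (((1 - ‖a‖ ^ 2 : ℝ) : ℂ)) = 1 - a * (starRingEnd ℂ) a := by
      rw [Complex.mul_conj, Complex.normSq_eq_norm_sq]
      push_cast
      ring
    rw [h3, sub_mul, mul_add, mul_one, mul_smul_comm, hTT, smul_zero, add_zero, smul_mul_assoc,
      one_mul, smul_add, smul_smul, sub_smul, one_smul]
    abel
  rw [h2]
  have h4 : ((((1 - ‖a‖ ^ 2 : ℝ) : ℂ)) • T - a • (1 : H →L[ℂ] H)) x =
      (((1 - ‖a‖ ^ 2 : ℝ) : ℂ)) • ((K : ℂ) • J H e f x) - a • x := rfl
  rw [h4, fam_J_apply, smul_smul]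
  push_cast
  rfl

end Pool.Agent.H270.QP
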