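import Pool.Agent.H270.QP.Defs

/-!
# Project QP: the geometric core
-/

set_option autoImplicit false

open Polynomial Filter Topology

namespace Pool.Agent.H270.QP

/-- the parameter `t` -/
theorem geom_t (z β : ℝ) (hz : 0 ≤ z) (hb : z ^ 2 ≤ β) (h : ¬ (z = 1 ∧ β = 1)) :
    ∃ t : ℝ, 0 ≤ t ∧ t < 1 ∧ z - t * (1 + β) + t ^ 2 * z = 0 := by
  have hc : ContinuousOn (fun t : ℝ => z - t * (1 + β) + t ^ 2 * z) (Set.Icc 0 1) := by
    apply Continuous.continuousOn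
    fun_prop
  have h1 : z - 1 * (1 + β) + 1 ^ 2 * z ≤ 0 := by nlinarith [sq_nonneg (z - 1)]
  have h0 : 0 ≤ z - 0 * (1 + β) + 0 ^ 2 * z := by nlinarith
  have hm := intermediate_value_Icc' (by norm_num : (0 : ℝ) ≤ 1) hc
  obtain ⟨t, ht, hg⟩ := hm (show (0 : ℝ) ∈ Set.Icc _ _ from ⟨h1, h0⟩)
  have hg' : z - t * (1 + β) + t ^ 2 * z = 0 := hg
  refine ⟨t, ht.1, lt_of_le_of_ne ht.2 ?_, hg'⟩
  intro h2
  apply h
  rw [h2] at hg'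
  have h3 : (z - 1) ^ 2 ≤ 0 := by nlinarith
  have h4 : z = 1 := by
    have := pow_eq_zero_iff (n := 2) (by norm_num) |>.1 (le_antisymm h3 (sq_nonneg _))
    linarith
  exact ⟨h4, by rw [h4] at hg'; linarith⟩

theorem geom_fin (k : ℝ) (hk : 1 ≤ k) (t : ℝ) (ht2 : 0 < 1 - t ^ 2) (β h p r z : ℝ) (hp : 0 ≤ p)
    (hr : 0 < r) (hPR : p * r = (1 - t ^ 2) * h) (hPn : p ^ 2 = β - 2 * (t * z) + t ^ 2)
    (hRn : r ^ 2 = 1 - 2 * (t * z) + t ^ 2 * β)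
    (h1 : k ^ 2 * p ^ 2 - (k ^ 2 - 1) * 0 ^ 2 ≤ 4 * (k ^ 2 * r ^ 2 - (k ^ 2 - 1) * r ^ 2)) :
    (2 / k) * (β - 1) ≤ ((2 / k) ^ 2 - 1) * h := by
  have hk0 : 0 < k := by linarith
  have h2 : (k * p) ^ 2 ≤ (2 * r) ^ 2 := by nlinarith
  have h3 : k * p ≤ 2 * r := (sq_le_sq₀ (by positivity) (by positivity)).1 h2
  have h4 : p ≤ 2 / k * r := by
    rw [div_mul_eq_mul_div, le_div_iff₀ hk0]; linarith
  have hK : 0 < 2 / k := by positivity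
  generalize 2 / k = K at h4 hK ⊢
  have h5 : (p - K * r) * (K * p + r) ≤ 0 := by
    apply mul_nonpos_of_nonpos_of_nonneg
    · linarith
    · positivity
  have h6 : K * (p ^ 2 - r ^ 2) ≤ (K ^ 2 - 1) * (p * r) := by linarith
  rw [hPR, hPn, hRn] at h6
  have h7 : (1 - t ^ 2) * (K * (β - 1)) ≤ (1 - t ^ 2) * ((K ^ 2 - 1) * h) := by linarith
  exact le_of_mul_le_mul_left h7 ht2

section

variable {H : Type*} [NormedAddCommGroup H] [InnerProductSpace ℂ H]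

theorem geom_nsub (a b : H) : ‖a - b‖ ^ 2 = ‖a‖ ^ 2 - 2 * (inner ℂ a b : ℂ).re + ‖b‖ ^ 2 := by
  have := @norm_sub_sq ℂ H _ _ _ a b
  simpa using this

theorem geom_main (k : ℝ) (hk : 1 ≤ k) (x y : H) (hx : ‖x‖ = 1)
    (hyp : ∀ e : ℂ, ‖e‖ < 1 → ∀ w : H, ‖w‖ = 1 →
      k ^ 2 * ‖y - e • x‖ ^ 2 - (k ^ 2 - 1) * ‖(inner ℂ w (y - e • x) : ℂ)‖ ^ 2 ≤
        4 * (k ^ 2 * ‖x - (starRingEnd ℂ) e • y‖ ^ 2
          - (k ^ 2 - 1) * ‖(inner ℂ w (x - (starRingEnd ℂ) e • y) : ℂ)‖ ^ 2)) :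
    (2 / k) * (‖y‖ ^ 2 - 1) ≤
      ((2 / k) ^ 2 - 1) * Real.sqrt (‖y‖ ^ 2 - ‖(inner ℂ x y : ℂ)‖ ^ 2) := by
  set ζ : ℂ := inner ℂ x y with hζ
  set β : ℝ := ‖y‖ ^ 2 with hβ
  have hz : 0 ≤ ‖ζ‖ := norm_nonneg _
  have hb : ‖ζ‖ ^ 2 ≤ β := by
    have h1 : ‖ζ‖ ≤ ‖x‖ * ‖y‖ := norm_inner_le_norm x y
    rw [hx, one_mul] at h1
    exact pow_le_pow_left₀ hz h1 2
  by_cases hcase : ‖ζ‖ = 1 ∧ β = 1
  · rw [hcase.1, hcase.2]; simp
  obtain ⟨t, ht0, ht1, hg⟩ := geom_t ‖ζ‖ β hz hb hcase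
  -- the phase
  obtain ⟨u, hu1, huz⟩ : ∃ u : ℂ, ‖u‖ = 1 ∧ ζ = u * (‖ζ‖ : ℂ) := by
    by_cases h0 : ζ = 0
    · exact ⟨1, by simp, by simp [h0]⟩
    · have h1 : (‖ζ‖ : ℂ) ≠ 0 := by exact_mod_cast norm_ne_zero_iff.2 h0
      refine ⟨ζ / ‖ζ‖, ?_, by field_simp⟩
      rw [norm_div, Complex.norm_real, Real.norm_of_nonneg hz, div_self (norm_ne_zero_iff.2 h0)]
  have huu : u * (starRingEnd ℂ) u = 1 := by
    rw [Complex.mul_conj, Complex.normSq_eq_norm_sq, hu1]; simp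
  set e : ℂ := (t : ℂ) * u with he
  have hne : ‖e‖ = t := by rw [he, norm_mul, hu1, Complex.norm_real, Real.norm_of_nonneg ht0, mul_one]
  have hne1 : ‖e‖ < 1 := by rw [hne]; exact ht1
  have hce : (starRingEnd ℂ) e = (t : ℂ) * (starRingEnd ℂ) u := by
    rw [he, map_mul, Complex.conj_ofReal]
  have hez : (starRingEnd ℂ) e * ζ = ((t * ‖ζ‖ : ℝ) : ℂ) := by
    rw [hce]
    calc (t : ℂ) * (starRingEnd ℂ) u * ζ = (t : ℂ) * (starRingEnd ℂ) u * (u * (‖ζ‖ : ℂ)) := by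
          rw [← huz]
      _ = (u * (starRingEnd ℂ) u) * ((t : ℂ) * (‖ζ‖ : ℂ)) := by ring
      _ = ((t * ‖ζ‖ : ℝ) : ℂ) := by rw [huu]; push_cast; ring
  have hxx : (inner ℂ x x : ℂ) = 1 := by
    rw [inner_self_eq_norm_sq_to_K, hx]; simp
  have hyy : (inner ℂ y y : ℂ) = (β : ℂ) := by
    rw [inner_self_eq_norm_sq_to_K, hβ]; push_cast; rfl
  have hyx : (inner ℂ y x : ℂ) = (starRingEnd ℂ) ζ := by
    rw [hζ]; exact (inner_conj_symm y x).symm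
  set P : H := y - e • x with hP
  set R : H := x - (starRingEnd ℂ) e • y with hR
  have hRP : (inner ℂ R P : ℂ) = 0 := by
    rw [hP, hR]
    simp only [inner_sub_left, inner_sub_right, inner_smul_left, inner_smul_right]
    rw [hxx, hyy, hyx, ← hζ, Complex.conj_conj]
    have h1 : (starRingEnd ℂ) ζ = (starRingEnd ℂ) u * (‖ζ‖ : ℂ) := by
      conv_lhs => rw [huz]
      rw [map_mul, Complex.conj_ofReal]
    have h2 : ζ - e * 1 - (e * (β : ℂ) - e * (e * (starRingEnd ℂ) ζ)) =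
        u * ((‖ζ‖ - t * (1 + β) + t ^ 2 * ‖ζ‖ : ℝ) : ℂ) := by
      rw [h1, he]
      push_cast
      calc ζ - (t : ℂ) * u * 1 - ((t : ℂ) * u * (β : ℂ)
            - (t : ℂ) * u * ((t : ℂ) * u * ((starRingEnd ℂ) u * (‖ζ‖ : ℂ))))
          = ζ - (t : ℂ) * u * 1 - ((t : ℂ) * u * (β : ℂ)
            - (t : ℂ) * u * ((t : ℂ) * (u * (starRingEnd ℂ) u) * (‖ζ‖ : ℂ))) := by ring
        _ = (u * (‖ζ‖ : ℂ)) - (t : ℂ) * u * 1 - ((t : ℂ) * u * (β : ℂ)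
            - (t : ℂ) * u * ((t : ℂ) * 1 * (‖ζ‖ : ℂ))) := by rw [huu, ← huz]
        _ = _ := by ring
    rw [hg] at h2
    rw [Complex.ofReal_zero, mul_zero] at h2
    have h3 : ζ - e * (β : ℂ) - e * (1 - e * (starRingEnd ℂ) ζ) =
        ζ - e * 1 - (e * (β : ℂ) - e * (e * (starRingEnd ℂ) ζ)) := by ring
    rw [h3]
    exact h2
  have hPn : ‖P‖ ^ 2 = β - 2 * (t * ‖ζ‖) + t ^ 2 := by
    rw [hP, geom_nsub, norm_smul, hne, hx, mul_one]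
    have h1 : (inner ℂ y (e • x) : ℂ).re = t * ‖ζ‖ := by
      rw [inner_smul_right, hyx]
      have h2 : e * (starRingEnd ℂ) ζ = (starRingEnd ℂ) ((starRingEnd ℂ) e * ζ) := by
        rw [map_mul, Complex.conj_conj]
      rw [h2, hez, Complex.conj_ofReal, Complex.ofReal_re]
    rw [h1]
  have hRn : ‖R‖ ^ 2 = 1 - 2 * (t * ‖ζ‖) + t ^ 2 * β := by
    rw [hR, geom_nsub, norm_smul, RCLike.norm_conj, hne, hx]
    have h1 : (inner ℂ x ((starRingEnd ℂ) e • y) : ℂ).re = t * ‖ζ‖ := by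
      rw [inner_smul_right, ← hζ, hez, Complex.ofReal_re]
    rw [h1, hβ]
    ring
  set h : ℝ := Real.sqrt (β - ‖ζ‖ ^ 2) with hh
  have hh2 : h ^ 2 = β - ‖ζ‖ ^ 2 := Real.sq_sqrt (by linarith)
  have hh0 : 0 ≤ h := Real.sqrt_nonneg _
  have ht2 : 0 < 1 - t ^ 2 := by nlinarith
  have hPR : ‖P‖ * ‖R‖ = (1 - t ^ 2) * h := by
    have h1 : (‖P‖ * ‖R‖) ^ 2 = ((1 - t ^ 2) * h) ^ 2 := by
      rw [mul_pow, mul_pow, hh2, hPn, hRn]
      have h2 : (β - 2 * (t * ‖ζ‖) + t ^ 2) * (1 - 2 * (t * ‖ζ‖) + t ^ 2 * β)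
          - (1 - t ^ 2) ^ 2 * (β - ‖ζ‖ ^ 2) = (‖ζ‖ - t * (1 + β) + t ^ 2 * ‖ζ‖) ^ 2 := by ring
      rw [hg] at h2
      linarith
    exact (sq_eq_sq₀ (by positivity) (by positivity)).1 h1
  have hH := hyp e hne1
  rw [← hP, ← hR] at hH
  have hk0 : 0 < k := by linarith
  by_cases hR0 : R = 0
  · exfalso
    have h1 := hH x hx
    rw [hR0] at h1
    simp only [norm_zero, inner_zero_right] at h1
    have h2 : ‖(inner ℂ x P : ℂ)‖ ^ 2 ≤ ‖P‖ ^ 2 := by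
      have h3 : ‖(inner ℂ x P : ℂ)‖ ≤ ‖x‖ * ‖P‖ := norm_inner_le_norm x P
      rw [hx, one_mul] at h3
      exact pow_le_pow_left₀ (norm_nonneg _) h3 2
    have hk2 : 0 ≤ k ^ 2 - 1 := by nlinarith
    have h4 : ‖P‖ ^ 2 ≤ 0 := by nlinarith [mul_le_mul_of_nonneg_left h2 hk2]
    have h5 : ‖R‖ ^ 2 = 0 := by rw [hR0]; simp
    rw [hPn] at h4
    rw [hRn] at h5
    have h6 : (1 - t * ‖ζ‖) ^ 2 ≤ 0 := by nlinarith [mul_le_mul_of_nonneg_left hb (sq_nonneg t)]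
    have h7 : (‖ζ‖ - t) ^ 2 ≤ 0 := by nlinarith
    have h8 : 1 - t * ‖ζ‖ = 0 := pow_eq_zero_iff (n := 2) (by norm_num) |>.1
      (le_antisymm h6 (sq_nonneg _))
    have h9 : ‖ζ‖ - t = 0 := pow_eq_zero_iff (n := 2) (by norm_num) |>.1
      (le_antisymm h7 (sq_nonneg _))
    have h10 : ‖ζ‖ = t := by linarith
    rw [h10] at h8
    nlinarith
  · have hRp : 0 < ‖R‖ := norm_pos_iff.2 hR0
    have hw1 : ‖((‖R‖⁻¹ : ℝ) : ℂ) • R‖ = 1 := by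
      rw [norm_smul, Complex.norm_real, Real.norm_of_nonneg (by positivity),
        inv_mul_cancel₀ hRp.ne']
    have h1 := hH _ hw1
    have hwP : (inner ℂ (((‖R‖⁻¹ : ℝ) : ℂ) • R) P : ℂ) = 0 := by
      rw [inner_smul_left, hRP, mul_zero]
    have hwR : ‖(inner ℂ (((‖R‖⁻¹ : ℝ) : ℂ) • R) R : ℂ)‖ = ‖R‖ := by
      rw [inner_smul_left, Complex.conj_ofReal, norm_mul, Complex.norm_real,
        Real.norm_of_nonneg (by positivity), inner_self_eq_norm_sq_to_K]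
      rw [norm_pow]
      have h2 : ‖((‖R‖ : ℝ) : ℂ)‖ = ‖R‖ := by
        rw [Complex.norm_real, norm_norm]
      have h3 : ‖(RCLike.ofReal ‖R‖ : ℂ)‖ = ‖R‖ := h2
      rw [h3]
      field_simp
    rw [hwP, hwR, norm_zero] at h1
    exact geom_fin k hk t ht2 β h ‖P‖ ‖R‖ ‖ζ‖ (norm_nonneg _) hRp hPR hPn hRn h1

end

theorem t_geom (H : Type*) [NormedAddCommGroup H] [InnerProductSpace ℂ H] [CompleteSpace H] :
    S_geom H := by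
  intro k hk x y hx hyp
  exact geom_main k hk x y hx hyp

end Pool.Agent.H270.QP
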