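import Pool.Agent.H270.QP.Defs

/-!
# Project QP: the maximum over the region
-/

set_option autoImplicit false

namespace Pool.Agent.H270.QP

/-- upper bound, general case -/
theorem max_gen {K s c z h i : ℝ} (hK : 0 < K) (hi : K * i = 1) (hcs : c ^ 2 + s ^ 2 = 1)
    (H : K * (z ^ 2 + h ^ 2 - 1) ≤ (K ^ 2 - 1) * h) :
    c * z + s * h ≤ ((1 + s) * K + (1 - s) * i) / 2 := by
  have hi0 : 0 < i := by
    by_contra hn
    push Not at hn
    have := mul_nonpos_of_nonneg_of_nonpos hK.le hn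
    linarith
  have h1 : z ^ 2 + h ^ 2 - 1 ≤ (K - i) * h := by
    have h2 := mul_le_mul_of_nonneg_left H hi0.le
    have e1 : i * (K * (z ^ 2 + h ^ 2 - 1)) = (K * i) * (z ^ 2 + h ^ 2 - 1) := by ring
    have e2 : i * ((K ^ 2 - 1) * h) = (K * (K * i) - i) * h := by ring
    rw [e1, e2, hi] at h2
    linarith
  have h2 : z ^ 2 + (h - (K - i) / 2) ^ 2 ≤ ((K + i) / 2) ^ 2 := by
    have : ((K + i) / 2) ^ 2 - ((K - i) / 2) ^ 2 = 1 := by
      have : ((K + i) / 2) ^ 2 - ((K - i) / 2) ^ 2 = K * i := by ring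
      rw [this, hi]
    nlinarith
  have h3 : (c * z + s * (h - (K - i) / 2)) ^ 2 ≤ ((K + i) / 2) ^ 2 := by
    refine le_trans ?_ h2
    have e : z ^ 2 + (h - (K - i) / 2) ^ 2 = (c ^ 2 + s ^ 2) * (z ^ 2 + (h - (K - i) / 2) ^ 2) := by
      rw [hcs, one_mul]
    rw [e]
    nlinarith [sq_nonneg (c * (h - (K - i) / 2) - s * z)]
  have h4 : c * z + s * (h - (K - i) / 2) ≤ (K + i) / 2 :=
    le_of_sq_le_sq h3 (by positivity)
  linarith

/-- upper bound, first case -/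
theorem max_one {K s c z h : ℝ} (hK : 0 < K) (hs : 0 ≤ s) (hc : 0 ≤ c) (hcs : c ^ 2 + s ^ 2 = 1)
    (_ : 0 ≤ z) (hh : 0 ≤ h) (hsK : s * (1 + K ^ 2) ≤ 1 - K ^ 2)
    (H : K * (z ^ 2 + h ^ 2 - 1) ≤ (K ^ 2 - 1) * h) : c * z + s * h ≤ c := by
  have hK1 : 0 ≤ 1 - K ^ 2 := by
    have : 0 ≤ s * (1 + K ^ 2) := by positivity
    linarith
  have hhK : h ≤ K := by
    by_contra hn
    push Not at hn
    have h1 : 0 < (h - K) * (1 + K * h) := mul_pos (by linarith) (by positivity)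
    have h2 : 0 ≤ K * z ^ 2 := by positivity
    nlinarith
  have hc1 : 2 * K ≤ c * (1 + K ^ 2) := by
    apply le_of_sq_le_sq _ (by positivity)
    have h1 : (s * (1 + K ^ 2)) ^ 2 ≤ (1 - K ^ 2) ^ 2 := pow_le_pow_left₀ (by positivity) hsK 2
    have h2 : (c * (1 + K ^ 2)) ^ 2 = (1 + K ^ 2) ^ 2 - (s * (1 + K ^ 2)) ^ 2 := by
      have : c ^ 2 = 1 - s ^ 2 := by linarith
      rw [mul_pow, this]
      ring
    rw [h2]
    nlinarith
  have hsh : s * h ≤ c := by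
    have h1 : s * h ≤ s * K := mul_le_mul_of_nonneg_left hhK hs
    have h2 : s * K ≤ c := by
      have h3 : (s * K) * (1 + K ^ 2) ≤ c * (1 + K ^ 2) := by
        calc (s * K) * (1 + K ^ 2) = K * (s * (1 + K ^ 2)) := by ring
          _ ≤ K * (1 - K ^ 2) := mul_le_mul_of_nonneg_left hsK hK.le
          _ ≤ 2 * K := by nlinarith
          _ ≤ _ := hc1
      exact le_of_mul_le_mul_right h3 (by positivity)
    linarith
  have h2s : 2 * s * K ≤ c * (1 - K ^ 2) := by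
    have h3 : (2 * s * K) * (1 + K ^ 2) ≤ (c * (1 - K ^ 2)) * (1 + K ^ 2) := by
      calc (2 * s * K) * (1 + K ^ 2) = 2 * K * (s * (1 + K ^ 2)) := by ring
        _ ≤ 2 * K * (1 - K ^ 2) := mul_le_mul_of_nonneg_left hsK (by positivity)
        _ ≤ (c * (1 + K ^ 2)) * (1 - K ^ 2) := mul_le_mul_of_nonneg_right hc1 hK1
        _ = _ := by ring
    exact le_of_mul_le_mul_right h3 (by positivity)
  have hsq : K * (c * z) ^ 2 ≤ K * (c - s * h) ^ 2 := by
    have h1 : c ^ 2 * (K * z ^ 2) ≤ c ^ 2 * (K - K * h ^ 2 - (1 - K ^ 2) * h) :=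
      mul_le_mul_of_nonneg_left (by linarith) (sq_nonneg c)
    have h2 : 0 ≤ h * (K * h + c * (c * (1 - K ^ 2) - 2 * s * K)) := by
      apply mul_nonneg hh
      have : 0 ≤ c * (c * (1 - K ^ 2) - 2 * s * K) := mul_nonneg hc (by linarith)
      positivity
    have h3 : K * (c - s * h) ^ 2 - c ^ 2 * (K - K * h ^ 2 - (1 - K ^ 2) * h) =
        h * (K * h * (c ^ 2 + s ^ 2) + c * (c * (1 - K ^ 2) - 2 * s * K)) := by ring
    rw [hcs, mul_one] at h3
    nlinarith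
  have hsq2 : (c * z) ^ 2 ≤ (c - s * h) ^ 2 := le_of_mul_le_mul_left hsq hK
  have := le_of_sq_le_sq hsq2 (by linarith)
  linarith

theorem t_max : S_max := by
  intro K s hK hs hs1
  obtain ⟨c, hce⟩ : ∃ c, c = Real.sqrt (1 - s ^ 2) := ⟨_, rfl⟩
  have hs2 : 0 ≤ 1 - s ^ 2 := by nlinarith
  have hc : 0 ≤ c := by
    rw [hce]
    exact Real.sqrt_nonneg _
  have hcs : c ^ 2 + s ^ 2 = 1 := by
    rw [hce, Real.sq_sqrt hs2]
    ring
  have hi : K * K⁻¹ = 1 := mul_inv_cancel₀ hK.ne'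
  unfold G
  rw [← hce]
  by_cases hsK : s * (1 + K ^ 2) ≤ 1 - K ^ 2
  · rw [if_pos hsK]
    refine ⟨fun z h hz hh H => max_one hK hs hc hcs hz hh hsK H, 1, 0, by norm_num, le_rfl, ?_, ?_⟩
    · simp
    · simp
  · rw [if_neg hsK]
    push Not at hsK
    have hdiv : (1 - s) / K = (1 - s) * K⁻¹ := div_eq_mul_inv _ _
    rw [hdiv]
    obtain ⟨i, hie⟩ : ∃ i, i = K⁻¹ := ⟨_, rfl⟩
    rw [← hie] at hi ⊢
    have hi0 : 0 < i := by
      rw [hie]
      positivity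
    refine ⟨fun z h _ _ H => max_gen hK hi hcs H, c * ((K + i) / 2),
      (K - i) / 2 + s * ((K + i) / 2), by positivity, ?_, ?_, ?_⟩
    · have h1 : 0 < i * (s * (1 + K ^ 2) - (1 - K ^ 2)) := mul_pos hi0 (by linarith)
      have h2 : i * (s * (1 + K ^ 2) - (1 - K ^ 2)) = s * (i + K * (K * i)) - (i - K * (K * i)) := by
        ring
      rw [h2, hi] at h1
      linarith
    · have h1 : (c * ((K + i) / 2)) ^ 2 + ((K - i) / 2 + s * ((K + i) / 2)) ^ 2 - 1 =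
          (K - i) * ((K - i) / 2 + s * ((K + i) / 2)) := by
        have e : (c * ((K + i) / 2)) ^ 2 + ((K - i) / 2 + s * ((K + i) / 2)) ^ 2 - 1 -
            (K - i) * ((K - i) / 2 + s * ((K + i) / 2)) =
            ((K + i) / 2) ^ 2 * (c ^ 2 + s ^ 2) - ((K - i) / 2) ^ 2 - 1 := by ring
        rw [hcs] at e
        have e2 : ((K + i) / 2) ^ 2 * 1 - ((K - i) / 2) ^ 2 - 1 = K * i - 1 := by ring
        rw [e2, hi] at e
        linarith
      rw [h1]
      have h2 : K * ((K - i) * ((K - i) / 2 + s * ((K + i) / 2))) =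
          (K ^ 2 - K * i) * ((K - i) / 2 + s * ((K + i) / 2)) := by ring
      rw [h2, hi]
    · have : c * (c * ((K + i) / 2)) + s * ((K - i) / 2 + s * ((K + i) / 2)) =
          (K + i) / 2 * (c ^ 2 + s ^ 2) + s * ((K - i) / 2) := by ring
      rw [this, hcs]
      ring

theorem t_54 : S_54 := by
  intro q hq hq1
  obtain ⟨t, ht⟩ : ∃ t, t = ‖q‖ := ⟨_, rfl⟩
  unfold Kc
  rw [← ht] at hq hq1 ⊢
  obtain ⟨s, hse⟩ : ∃ s, s = Real.sqrt (1 - t ^ 2) := ⟨_, rfl⟩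
  rw [← hse]
  have h1 : 0 ≤ 1 - t ^ 2 := by nlinarith
  have hs : 0 ≤ s := by
    rw [hse]
    exact Real.sqrt_nonneg _
  have hs2 : s ^ 2 = 1 - t ^ 2 := by
    rw [hse, Real.sq_sqrt h1]
  have hs1 : s < 1 := by
    have : 0 < t ^ 2 := by positivity
    nlinarith
  obtain ⟨K, hK⟩ : ∃ K, K = 2 * t / (1 + s) := ⟨_, rfl⟩
  rw [← hK]
  have hK0 : 0 < K := by
    rw [hK]
    positivity
  have hKs : K * (1 + s) = 2 * t := by
    rw [hK]
    field_simp
  have hK2 : K ^ 2 * (1 + s) = 4 * (1 - s) := by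
    have h2 : K ^ 2 * (1 + s) * (1 + s) = 4 * (1 - s) * (1 + s) := by
      calc K ^ 2 * (1 + s) * (1 + s) = (K * (1 + s)) ^ 2 := by ring
        _ = 4 * t ^ 2 := by
          rw [hKs]
          ring
        _ = 4 * (1 - s) * (1 + s) := by
          have : t ^ 2 = 1 - s ^ 2 := by linarith
          rw [this]
          ring
    exact mul_right_cancel₀ (by linarith : (1 + s) ≠ 0) h2
  unfold G
  rw [if_neg (by
    intro h
    nlinarith)]
  have h3 : (1 - s) / K = K * (1 + s) / 4 := by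
    rw [div_eq_div_iff hK0.ne' (by norm_num)]
    linarith
  rw [h3]
  linarith

end Pool.Agent.H270.QP
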