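import Pool.Agent.H270.QP.Defs

set_option autoImplicit false

open Polynomial Filter Topology

namespace Pool.Agent.H270.QP

open Pool.Agent.Helper324_QNR

theorem t_moeb (H : Type*) [NormedAddCommGroup H] [InnerProductSpace ℂ H] [CompleteSpace H]
    (h : S_basic H) : S_moeb H := by
  intro A q hq0 hq1 hd p hp e he w hw u
  set T := aeval A p with hT
  set e' := (starRingEnd ℂ) e with he'
  have hen : ‖e'‖ = ‖e‖ := RCLike.norm_conj e
  have heq : ∀ N : ℕ, aeval A (qN p e N) * (1 - e' • T) = (T - e • 1) * (1 - (e' • T) ^ N) := by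
    intro N
    have := congrArg (aeval A) (qN_mul p e N)
    rw [map_mul, map_mul, map_sub, map_sub, map_sub, map_mul, map_pow, map_mul, aeval_C, aeval_C,
      map_one, Algebra.algebraMap_eq_smul_one, Algebra.algebraMap_eq_smul_one, smul_mul_assoc,
      one_mul, ← hT, ← he'] at this
    exact this
  have hTN : ∀ N : ℕ, ‖T ^ N‖ ≤ 2 := by
    intro N
    have h1 := crude A q hq0 hq1 hd (p ^ N) 1 zero_le_one (fun z hz => by
      rw [eval_pow, norm_pow]
      exact pow_le_one₀ (norm_nonneg _) (hp z hz))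
    rw [map_pow, ← hT] at h1
    linarith
  have hlimP : Tendsto (fun N : ℕ => (e' • T) ^ N) atTop (𝓝 0) := by
    apply squeeze_zero_norm (a := fun N => ‖e‖ ^ N * 2)
    · intro N
      rw [_root_.smul_pow, norm_smul, norm_pow, hen]
      gcongr
      exact hTN N
    · have := (tendsto_pow_atTop_nhds_zero_of_lt_one (norm_nonneg e) he).mul_const (2 : ℝ)
      rwa [zero_mul] at this
  set v := u - e' • T u with hv
  set F : (H →L[ℂ] H) → ℝ := fun L => kap q ^ 2 * ‖L u‖ ^ 2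
    - (kap q ^ 2 - 1) * ‖(inner ℂ w (L u) : ℂ)‖ ^ 2 with hF
  have hineq : ∀ N : ℕ, F ((T - e • 1) * (1 - (e' • T) ^ N)) ≤ (2 * (1 + ‖e‖ ^ N)) ^ 2 *
      (kap q ^ 2 * ‖v‖ ^ 2 - (kap q ^ 2 - 1) * ‖(inner ℂ w v : ℂ)‖ ^ 2) := by
    intro N
    have h1 := h A q hq0 hq1 hd (qN p e N) (1 + ‖e‖ ^ N)
      (fun z hz => qN_eval p e he N z (hp z hz)) w hw v
    have h2 : aeval A (qN p e N) v = ((T - e • 1) * (1 - (e' • T) ^ N)) u := by
      rw [← heq N]; rfl
    rw [h2] at h1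
    exact h1
  have hlim1 : Tendsto (fun N : ℕ => (2 * (1 + ‖e‖ ^ N)) ^ 2 *
      (kap q ^ 2 * ‖v‖ ^ 2 - (kap q ^ 2 - 1) * ‖(inner ℂ w v : ℂ)‖ ^ 2)) atTop
      (𝓝 ((2 * (1 + 0)) ^ 2 *
      (kap q ^ 2 * ‖v‖ ^ 2 - (kap q ^ 2 - 1) * ‖(inner ℂ w v : ℂ)‖ ^ 2))) := by
    have := tendsto_pow_atTop_nhds_zero_of_lt_one (norm_nonneg e) he
    exact (((tendsto_const_nhds.add this).const_mul 2).pow 2).mul_const _
  have hlim2 : Tendsto (fun N : ℕ => F ((T - e • 1) * (1 - (e' • T) ^ N))) atTop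
      (𝓝 (F ((T - e • 1) * (1 - 0)))) := by
    have h2 : Tendsto (fun N : ℕ => (T - e • 1) * (1 - (e' • T) ^ N)) atTop
        (𝓝 ((T - e • 1) * (1 - 0))) := (tendsto_const_nhds.sub hlimP).const_mul _
    have h3 : Continuous F := by
      rw [hF]
      have h4 : Continuous (fun L : H →L[ℂ] H => L u) := by fun_prop
      have h5 : Continuous (fun L : H →L[ℂ] H => (inner ℂ w (L u) : ℂ)) :=
        Continuous.inner continuous_const h4
      exact (continuous_const.mul (h4.norm.pow 2)).sub (continuous_const.mul (h5.norm.pow 2))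
    exact (h3.tendsto _).comp h2
  have hfin := le_of_tendsto_of_tendsto' hlim2 hlim1 hineq
  have e1 : F ((T - e • 1) * (1 - 0)) = kap q ^ 2 * ‖T u - e • u‖ ^ 2
      - (kap q ^ 2 - 1) * ‖(inner ℂ w (T u - e • u) : ℂ)‖ ^ 2 := by
    rw [hF, sub_zero, mul_one]
    rfl
  rw [e1] at hfin
  have e2 : (2 * (1 + 0) : ℝ) ^ 2 = 4 := by norm_num
  rw [e2] at hfin
  exact hfin

end Pool.Agent.H270.QP
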