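import Pool.Agent.H270.QP.Defs

/-!
# `S_nil`
-/

set_option autoImplicit false

namespace Pool.Agent.H270.QP

open Pool.Agent.Helper324_QNR

section

variable {H : Type*} [NormedAddCommGroup H] [InnerProductSpace ℂ H]

theorem nil_self {f : H} (hf : ‖f‖ = 1) : inner ℂ f f = (1 : ℂ) := by
  rw [inner_self_eq_norm_sq_to_K, hf]
  simp

theorem nil_pyth {f x x' : H} (hf : ‖f‖ = 1) (hx : ‖x‖ = 1) (h : x = (inner ℂ f x : ℂ) • f + x')
    (h0 : inner ℂ f x' = (0 : ℂ)) : ‖(inner ℂ f x : ℂ)‖ ^ 2 + ‖x'‖ ^ 2 = 1 := by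
  have h1 := norm_add_sq_eq_norm_sq_add_norm_sq_of_inner_eq_zero (𝕜 := ℂ)
    ((inner ℂ f x : ℂ) • f) x' (by rw [inner_smul_left, h0, mul_zero])
  rw [← h, hx, norm_smul, hf] at h1
  nlinarith

theorem nil_range {e f x y : H} (he : ‖e‖ = 1) (hf : ‖f‖ = 1) (hfe : inner ℂ f e = (0 : ℂ))
    (hx : ‖x‖ = 1) (hy : ‖y‖ = 1) :
    2 * (‖(inner ℂ f x : ℂ)‖ * ‖(inner ℂ y e : ℂ)‖) ≤
      1 + Real.sqrt (1 - ‖(inner ℂ y x : ℂ)‖ ^ 2) := by
  set x' : H := x - (inner ℂ f x : ℂ) • f with hx'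
  set y' : H := y - (inner ℂ f y : ℂ) • f with hy'
  have hff : inner ℂ f f = (1 : ℂ) := nil_self hf
  have hfx' : inner ℂ f x' = (0 : ℂ) := by
    rw [hx', inner_sub_right, inner_smul_right, hff, mul_one, sub_self]
  have hfy' : inner ℂ f y' = (0 : ℂ) := by
    rw [hy', inner_sub_right, inner_smul_right, hff, mul_one, sub_self]
  have hyf' : inner ℂ y' f = (0 : ℂ) := by rw [← inner_conj_symm, hfy', map_zero]
  have hxx : x = (inner ℂ f x : ℂ) • f + x' := by rw [hx']; abel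
  have hyy : y = (inner ℂ f y : ℂ) • f + y' := by rw [hy']; abel
  have hx1 : ‖(inner ℂ f x : ℂ)‖ ^ 2 + ‖x'‖ ^ 2 = 1 := nil_pyth hf hx hxx hfx'
  have hy1 : ‖(inner ℂ f y : ℂ)‖ ^ 2 + ‖y'‖ ^ 2 = 1 := nil_pyth hf hy hyy hfy'
  have hq : ‖(inner ℂ y x : ℂ)‖ ≤
      ‖(inner ℂ f x : ℂ)‖ * ‖(inner ℂ f y : ℂ)‖ + ‖x'‖ * ‖y'‖ := by
    have h1 : (inner ℂ y x : ℂ) =
        inner ℂ f x * (starRingEnd ℂ) (inner ℂ f y) + inner ℂ y' x' := by
      conv_lhs => rw [hxx, hyy]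
      rw [inner_add_left, inner_add_right, inner_add_right, inner_smul_left, inner_smul_left,
        inner_smul_right, inner_smul_right, hff, hfx', hyf']
      ring
    rw [h1]
    refine (norm_add_le _ _).trans (add_le_add ?_ ?_)
    · rw [norm_mul, RCLike.norm_conj]
    · rw [mul_comm]
      exact norm_inner_le_norm _ _
  have hye : ‖(inner ℂ y e : ℂ)‖ ≤ ‖y'‖ := by
    have h1 : (inner ℂ y e : ℂ) = inner ℂ y' e := by
      rw [hy', inner_sub_left, inner_smul_left, hfe, mul_zero, sub_zero]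
    rw [h1]
    have h2 := norm_inner_le_norm (𝕜 := ℂ) y' e
    rwa [he, mul_one] at h2
  have hb := norm_nonneg (inner ℂ f x : ℂ)
  have hd := norm_nonneg (inner ℂ f y : ℂ)
  have hb' := norm_nonneg x'
  have hd' := norm_nonneg y'
  have hq0 := norm_nonneg (inner ℂ y x : ℂ)
  have hc0 := norm_nonneg (inner ℂ y e : ℂ)
  clear_value x' y'
  clear hxx hyy hx' hy'
  generalize ‖(inner ℂ f x : ℂ)‖ = b at *
  generalize ‖(inner ℂ f y : ℂ)‖ = d at *
  generalize ‖x'‖ = b' at *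
  generalize ‖y'‖ = d' at *
  generalize ‖(inner ℂ y x : ℂ)‖ = s at *
  generalize ‖(inner ℂ y e : ℂ)‖ = r at *
  have h1 : b * r ≤ b * d' := mul_le_mul_of_nonneg_left hye hb
  have h2 : b * d' + b' * d ≤ 1 := by nlinarith [sq_nonneg (b - d'), sq_nonneg (b' - d)]
  have h3 : b * d' - b' * d ≤ Real.sqrt (1 - s ^ 2) := by
    apply Real.le_sqrt_of_sq_le
    have h4 : s ^ 2 ≤ (b * d + b' * d') ^ 2 := pow_le_pow_left₀ hq0 hq 2
    have h5 : (b * d + b' * d') ^ 2 + (b * d' - b' * d) ^ 2 =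
        (b ^ 2 + b' ^ 2) * (d ^ 2 + d' ^ 2) := by ring
    rw [hx1, hy1] at h5
    linarith
  linarith

end

theorem t_nil (H : Type*) [NormedAddCommGroup H] [InnerProductSpace ℂ H] [CompleteSpace H] :
    S_nil H := by
  rintro e f he hf hfe q hq0 hq1 z ⟨x, y, hx, hy, hxy, rfl⟩
  have h3 := nil_range he hf hfe hx hy
  rw [hxy] at h3
  have h4 : ‖(inner ℂ y (J H e f x) : ℂ)‖ = ‖(inner ℂ f x : ℂ)‖ * ‖(inner ℂ y e : ℂ)‖ := by
    rw [J, ContinuousLinearMap.smulRight_apply, innerSL_apply_apply, inner_smul_right, norm_mul]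
  have hs := Real.sqrt_nonneg (1 - ‖q‖ ^ 2)
  rw [norm_div, h4, Kc, div_mul_div_comm, div_le_one (by positivity)]
  nlinarith

end Pool.Agent.H270.QP
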