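import Pool.Agent.H270.QP.Defs

/-! Project QP: `S_root` (helper370) -/

set_option autoImplicit false

namespace Pool.Agent.H270.QP

theorem t_root : S_root := by
  intro K h z hK hh hz hc
  have hKh : 0 < 1 + K * h := by positivity
  set Ψ : ℝ → ℝ := fun a => K * h * (1 - a ^ 2) - h ^ 2 - (a + z) ^ 2 with hΨ
  have hcont : Continuous Ψ := by rw [hΨ]; fun_prop
  have h1 : Ψ (-1) ≤ 0 := by
    simp only [hΨ]
    nlinarith [sq_nonneg h, sq_nonneg (-1 + z)]
  have h2 : 0 ≤ Ψ (-z / (1 + K * h)) := by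
    have e : Ψ (-z / (1 + K * h)) = h / (1 + K * h) * ((K - h) * (1 + K * h) - K * z ^ 2) := by
      simp only [hΨ]
      field_simp
      ring
    rw [e]
    apply mul_nonneg (by positivity)
    nlinarith
  obtain ⟨a, -, ha⟩ : (0 : ℝ) ∈ Ψ '' Set.uIcc (-1) (-z / (1 + K * h)) := by
    apply intermediate_value_uIcc hcont.continuousOn
    rw [Set.mem_uIcc]
    exact Or.inl ⟨h1, h2⟩
  simp only [hΨ] at ha
  have ha2 : 0 < 1 - a ^ 2 := by
    by_contra hcon
    push Not at hcon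
    nlinarith [mul_pos hK hh, sq_nonneg (a + z), pow_pos hh 2,
      mul_nonneg (mul_pos hK hh).le (neg_nonneg.2 hcon)]
  have hD : 0 < (1 - a ^ 2) * K := mul_pos ha2 hK
  have hr : 0 < h / ((1 - a ^ 2) * K) := div_pos hh hD
  have hx2 : 0 < Real.sqrt (h / ((1 - a ^ 2) * K)) := Real.sqrt_pos.2 hr
  have hsq : Real.sqrt (h / ((1 - a ^ 2) * K)) ^ 2 = h / ((1 - a ^ 2) * K) := Real.sq_sqrt hr.le
  refine ⟨a, (a + z) / ((1 - a ^ 2) * K * Real.sqrt (h / ((1 - a ^ 2) * K))),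
    Real.sqrt (h / ((1 - a ^ 2) * K)), ?_, ?_, ?_, ?_⟩
  · rw [← sq_lt_one_iff_abs_lt_one]; linarith
  · rw [div_pow, mul_pow, hsq]
    field_simp
    nlinarith
  · rw [hsq]
    field_simp
  · field_simp
    ring

end Pool.Agent.H270.QP
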